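import Pool.Agent.Q183.HD.P

/-!
# Equality in the estimate of the Jacobian
-/

set_option autoImplicit false

open MeasureTheory Metric Set Filter Topology

namespace Pool.Agent.Q183.CR

open Pool.Agent.Q183.CN Pool.Agent.Q183.HD
open Pool.Agent.W716.FV (E gam gd)
open Pool.Agent.Q188.FC (PB PL lf NN NNL NI hs qp)
open Pool.Agent.H241R3.FV (act mat det_mat)
open Pool.Agent.Q299.FC.DT (dot_eq quad_act apply_mat act_eq)

variable {n : ℕ}

theorem ae_of_gam {P : E n → Prop} (h : ∀ᵐ z ∂(gam n), P z) : ∀ᵐ z ∂(volume : Measure (E n)), P z := by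
  have h1 : (volume : Measure (E n)) ≪ gam n := by
    unfold gam
    refine withDensity_absolutelyContinuous' ?_ (ae_of_all _ fun z => ?_)
    · unfold gd
      fun_prop
    · have : 0 < gd n z := by
        unfold gd
        positivity
      exact (ENNReal.ofReal_pos.2 this).ne'
  exact h1.ae_le h

theorem zero_of_ae {g : E n → ℝ} (hc : Continuous g) (h : ∀ᵐ z ∂(gam n), g z = 0) :
    ∀ z, g z = 0 := by
  have h1 : g =ᵐ[(volume : Measure (E n))] fun _ => (0 : ℝ) := ae_of_gam h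
  have h2 := (hc.ae_eq_iff_eq _ continuous_const).1 h1
  intro z
  rw [h2]

theorem zero_of_int {g : E n → ℝ} (hc : Continuous g) (h0 : ∀ z, 0 ≤ g z)
    (hi : Integrable g (gam n)) (h : ∫ z, g z ∂(gam n) ≤ 0) : ∀ z, g z = 0 := by
  have h1 : ∫ z, g z ∂(gam n) = 0 := le_antisymm h (integral_nonneg h0)
  exact zero_of_ae hc ((integral_eq_zero_iff_of_nonneg h0 hi).1 h1)

/-- the numerator, with a general bound of the derivatives -/
theorem det_TXB {k : ℕ} {κ ρ κ' ρ' L ε : ℝ} (h : HP n k κ ρ κ' ρ' L ε) {p : E n} (hp : ‖p‖ ≤ ρ')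
    {φ : E n → ℝ} (hφ : Ck κ ρ φ) (h0 : mX k p φ = 0) {B : E n → ℝ} (hBc : Continuous B)
    (_ : ∀ y, 0 ≤ B y) (hBl : ∀ y, B y ≤ ‖y‖ ^ 2 - φ y ^ 2)
    {G : Matrix (Fin n) (Fin n) ℝ} (hG : G.PosDef) {D : E n → E n →L[ℝ] ℝ} (hD : Measurable D)
    (hDb : ∀ᵐ y ∂(volume : Measure (E n)), ∀ v : E n,
      (D y v) ^ 2 ≤ B y * ∑ i, ∑ j, v i * G i j * v j)
    {T : E n →L[ℝ] E n} (hT : ∀ v, T v = ∫ y, ((ak k φ y • D y) v * W p y) • y) :
    Integrable (fun z => ak k φ (NN p z) * √(B (NN p z) * ‖z‖ ^ 2)) (gam n) ∧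
    |T.det| ≤ (lf p * kn n) ^ n * (lf p *
      (((∫ z, ak k φ (NN p z) * √(B (NN p z) * ‖z‖ ^ 2) ∂(gam n)) / n) ^ n * √G.det)) := by
  have hρ0 := h.r0'.le
  have hρ := h.r1
  have hp1 : ‖p‖ < 1 := hp.trans_lt hρ
  obtain ⟨hg1, -, hNL, hdet, -, -, hpN, -⟩ := bst hp1
  have hl0 : 0 < lf p := by linarith
  have hbd := ck_bd h.rho1 hφ
  have hn : 0 < n := h.n0
  have hn' : (0 : ℝ) < n := by exact_mod_cast hn
  have hGn : ∀ v : E n, 0 ≤ ∑ i, ∑ j, v i * G i j * v j := fun v => by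
    rw [← Pool.Agent.W753.FV.BC.gnorm_sq hG v]
    positivity
  have hDb' : ∀ᵐ y ∂(volume : Measure (E n)), ∀ v : E n,
      (D y v) ^ 2 ≤ (‖y‖ ^ 2 - φ y ^ 2) * ∑ i, ∑ j, v i * G i j * v j := by
    filter_upwards [hDb] with y hy v
    exact (hy v).trans (mul_le_mul_of_nonneg_right (hBl y) (hGn v))
  set D' : E n → E n →L[ℝ] ℝ := fun y => ak k φ y • D y with hD'
  set g : E n → E n → E n := fun v z => (D' (NN p z) v) • z with hg
  have hDi : ∀ v, Integrable (fun y => (D' y v * W p y) • y) :=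
    fun v => DX_int k hρ0 hρ hp hbd hD hDb' v
  have hgi : ∀ v, Integrable (g v) (gam n) := fun v => (T_hat hp1 (hDi v)).1
  have hTv : ∀ v, T v = (lf p * kn n) • NNL p (∫ z, g v z ∂(gam n)) := by
    intro v
    rw [hT, (T_hat hp1 (hDi v)).2, hNL]
  set e : Fin n → E n := fun j => EuclideanSpace.single j (1 : ℝ) with he
  set M : Matrix (Fin n) (Fin n) ℝ := fun i j => (∫ z, g (e j) z ∂(gam n)) i with hM
  have hmT : mat T = (lf p * kn n) • (mat (NNL p) * M) := by
    ext i j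
    have h5 : mat T i j = (T (e j)) i := rfl
    rw [h5, hTv (e j), PiLp.smul_apply, apply_mat, Matrix.smul_apply, Matrix.mul_apply]
  have hdT : T.det = (lf p * kn n) ^ n * (lf p * M.det) := by
    rw [det_mat, hmT, Matrix.det_smul, Matrix.det_mul, ← det_mat, hdet, Fintype.card_fin]
  obtain ⟨iN, hN⟩ := num_le h hp hφ h0
  have hcN : Continuous fun z => NN p z := by
    have e : (fun z => NN p z) = fun z => NNL p z := by
      funext z
      rw [hNL]
    rw [e]
    exact (NNL p).continuous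
  have iB : Integrable (fun z => ak k φ (NN p z) * √(B (NN p z) * ‖z‖ ^ 2)) (gam n) := by
    refine iN.mono' ?_ (ae_of_all _ fun z => ?_)
    · refine Continuous.aestronglyMeasurable ?_
      unfold ak
      have c1 : Continuous fun z => ‖NN p z‖ ^ 2 - φ (NN p z) ^ 2 :=
        (hcN.norm.pow 2).sub ((hbd.1.comp hcN).pow 2)
      exact (c1.pow k).mul (Real.continuous_sqrt.comp ((hBc.comp hcN).mul (continuous_norm.pow 2)))
    · rw [Real.norm_of_nonneg (mul_nonneg (ak_bd k hbd _).1 (Real.sqrt_nonneg _))]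
      refine mul_le_mul_of_nonneg_left (Real.sqrt_le_sqrt ?_) (ak_bd k hbd _).1
      exact mul_le_mul_of_nonneg_right (hBl _) (sq_nonneg _)
  refine ⟨iB, ?_⟩
  set I := ∫ z, ak k φ (NN p z) * √(B (NN p z) * ‖z‖ ^ 2) ∂(gam n) with hI
  have hI0 : 0 ≤ I := integral_nonneg fun z => mul_nonneg (ak_bd k hbd _).1 (Real.sqrt_nonneg _)
  have hMd : |M.det| ≤ (I / n) ^ n * √G.det := by
    refine Pool.Agent.H241R3.FV.TMat.taskMat n hn M G hG (I / n) (by positivity) fun A hA => ?_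
    have h6 : ∀ i j, M i j = ∫ z, (g (e j) z) i ∂(gam n) := by
      intro i j
      have := ContinuousLinearMap.integral_comp_comm
        (EuclideanSpace.proj i : EuclideanSpace ℝ (Fin n) →L[ℝ] ℝ) (hgi (e j))
      simpa [hM] using this.symm
    have h7 : ∀ i j, Integrable (fun z => (g (e j) z) i * A j i) (gam n) := by
      intro i j
      exact ((EuclideanSpace.proj i : EuclideanSpace ℝ (Fin n) →L[ℝ] ℝ).integrable_comp
        (hgi (e j))).mul_const _
    have h7s : Integrable (fun z => ∑ i, ∑ j, (g (e j) z) i * A j i) (gam n) :=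
      integrable_finsetSum _ fun i _ => integrable_finsetSum _ fun j _ => h7 i j
    have h8 : ∀ z, ∑ i, ∑ j, (g (e j) z) i * A j i = D' (NN p z) (act A z) := by
      intro z
      rw [act_eq, map_sum, Finset.sum_comm]
      refine Finset.sum_congr rfl fun j _ => ?_
      rw [map_smul, smul_eq_mul, Finset.sum_mul]
      refine Finset.sum_congr rfl fun i _ => ?_
      have h9 : (g (e j) z) i = D' (NN p z) (e j) * z i := by
        simp [hg]
      rw [h9]
      simp only [he]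
      ring
    have h5 : (M * A).trace = ∫ z, D' (NN p z) (act A z) ∂(gam n) := by
      have e1 : (M * A).trace = ∑ i, ∑ j, ∫ z, (g (e j) z) i * A j i ∂(gam n) := by
        rw [Matrix.trace]
        refine Finset.sum_congr rfl fun i _ => ?_
        rw [Matrix.diag_apply, Matrix.mul_apply]
        refine Finset.sum_congr rfl fun j _ => ?_
        rw [h6, integral_mul_const]
      rw [e1]
      have e2 : ∀ i, ∑ j, ∫ z, (g (e j) z) i * A j i ∂(gam n) =
          ∫ z, ∑ j, (g (e j) z) i * A j i ∂(gam n) :=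
        fun i => (integral_finsetSum _ fun j _ => h7 i j).symm
      rw [Finset.sum_congr rfl fun i _ => e2 i,
        ← integral_finsetSum _ fun i _ => integrable_finsetSum _ fun j _ => h7 i j]
      exact integral_congr_ae (Filter.Eventually.of_forall h8)
    have h5i : Integrable (fun z => D' (NN p z) (act A z)) (gam n) :=
      h7s.congr (Filter.Eventually.of_forall h8)
    have hval : (n : ℝ) * (I / n) = I := by
      field_simp
    rw [h5, hval, hI]
    refine integral_mono_ae h5i iB ?_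
    filter_upwards [ae_nn hp1 hDb] with z hz
    have hv := hz (act A z)
    rw [quad_act G A hA] at hv
    show ak k φ (NN p z) * D (NN p z) (act A z) ≤ _
    apply mul_le_mul_of_nonneg_left _ (ak_bd k hbd _).1
    refine Real.le_sqrt_of_sq_le ?_
    exact hv
  have hkn := kn_pos n
  rw [hdT, abs_mul, abs_mul, abs_of_pos hl0, abs_of_pos (pow_pos (mul_pos hl0 hkn) n)]
  gcongr

/-- the equality case -/
theorem jac_eq {k : ℕ} {κ ρ κ' ρ' L ε : ℝ} (h : HJ n k κ ρ κ' ρ' L ε) {p : E n} (hp : ‖p‖ ≤ ρ')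
    {φ : E n → ℝ} (hφ : Ck κ ρ φ) (h0 : XX k p φ = 0) {B : E n → ℝ} (hBc : Continuous B)
    (hB0 : ∀ y, 0 ≤ B y) (hBl : ∀ y, B y ≤ ‖y‖ ^ 2 - φ y ^ 2)
    {G : Matrix (Fin n) (Fin n) ℝ} (hG : G.PosDef) {D : E n → E n →L[ℝ] ℝ} (hD : Measurable D)
    (hDb : ∀ᵐ y ∂(volume : Measure (E n)), ∀ v : E n,
      (D y v) ^ 2 ≤ B y * ∑ i, ∑ j, v i * G i j * v j)
    {T : E n →L[ℝ] E n} (hT : ∀ v, T v = ∫ y, ((ak k φ y • D y) v * W p y) • y)
    (heq : (lf p)⁻¹ * |(LX k p φ).det| * √G.det ≤ |T.det|) :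
    ∀ y, φ y = inner ℝ p y ∧ B y = ‖y‖ ^ 2 - φ y ^ 2 := by
  have hp1 : ‖p‖ < 1 := hp.trans_lt h.r1
  obtain ⟨hg1, -, hNL, -, -, -, b7, b8, b9⟩ := bst hp1
  have hl0 : 0 < lf p := by linarith
  have hbd := ck_bd h.rho1 hφ
  have hm := (XX_zero k h.r0'.le h.r1 hp hbd).1 h0
  have hL := det_LX k h.n0 h.k0 h.r0'.le h.r1 h.rho1 hp hφ
  obtain ⟨iB, hTd⟩ := det_TXB h.toHP hp hφ hm hBc hB0 hBl hG hD hDb hT
  obtain ⟨iN, hN⟩ := num_le h.toHP hp hφ hm
  have hhs := hs_le h hp hφ hm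
  have hlow := det_low' (Ax k p φ) (Ax_symm k p φ) (Ax_quad h.toHP hp hφ hm)
  rw [Ax_trace k h.k0 hp1 hφ hm, zero_add] at hlow
  have hcp := pr_pos h.n0 2 k
  have hn' : (0 : ℝ) < n := by exact_mod_cast h.n0
  have iV := vv_int k h.k0 h.rho1 hp1 hφ
  set V := ∫ z, vv k p φ z ∂(gam n) with hV
  have hV0 : 0 ≤ V := integral_nonneg fun z => vv_nonneg k p φ z
  set a : ℝ := (2 * k + 1) / 4 * V / pr n 2 k with ha
  have ha0 : 0 ≤ a := by positivity
  have hx : Real.exp (-a) ≤ (1 - Ax k p φ).det := by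
    refine le_trans ?_ hlow
    apply Real.exp_le_exp.2
    apply neg_le_neg
    rw [ha, le_div_iff₀ hcp]
    have h1 := h.c1
    have h2 : 20 * L * V ≤ (2 * k + 1) / 4 * V := by
      apply mul_le_mul_of_nonneg_right _ hV0
      linarith
    linarith
  have hx0 : 0 < (1 - Ax k p φ).det := (Real.exp_pos _).trans_le hx
  rw [abs_of_pos hx0] at hL
  set IB := ∫ z, ak k φ (NN p z) * √(B (NN p z) * ‖z‖ ^ 2) ∂(gam n) with hIB
  set I := ∫ z, ak k φ (NN p z) * √((‖NN p z‖ ^ 2 - φ (NN p z) ^ 2) * ‖z‖ ^ 2) ∂(gam n) with hI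
  have hIB0 : 0 ≤ IB := integral_nonneg fun z => mul_nonneg (ak_bd k hbd _).1 (Real.sqrt_nonneg _)
  have hpt : ∀ z, ak k φ (NN p z) * √(B (NN p z) * ‖z‖ ^ 2) ≤
      ak k φ (NN p z) * √((‖NN p z‖ ^ 2 - φ (NN p z) ^ 2) * ‖z‖ ^ 2) := fun z => by
    refine mul_le_mul_of_nonneg_left (Real.sqrt_le_sqrt ?_) (ak_bd k hbd _).1
    exact mul_le_mul_of_nonneg_right (hBl _) (sq_nonneg _)
  have hII : IB ≤ I := integral_mono iB iN hpt
  have hGd : 0 < √G.det := Real.sqrt_pos.2 hG.det_pos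
  have hkl : 0 < (lf p * kn n) ^ n := pow_pos (mul_pos hl0 (kn_pos n)) n
  have hlo : pr n 2 k ^ n * Real.exp (-a) ≤ (IB / n) ^ n := by
    have h1 := heq.trans hTd
    rw [hL, mul_pow (lf p * kn n) (pr n 2 k) n] at h1
    have h2 : (lf p)⁻¹ * ((lf p * kn n) ^ n * pr n 2 k ^ n * (lf p ^ 2 * (1 - Ax k p φ).det)) *
        √G.det = ((lf p * kn n) ^ n * lf p * √G.det) * (pr n 2 k ^ n * (1 - Ax k p φ).det) := by
      field_simp
    have h3 : (lf p * kn n) ^ n * (lf p * ((IB / n) ^ n * √G.det)) =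
        ((lf p * kn n) ^ n * lf p * √G.det) * (IB / n) ^ n := by ring
    rw [h2, h3] at h1
    have h4 := le_of_mul_le_mul_left h1 (by positivity)
    refine le_trans ?_ h4
    gcongr
  have hIn : IB / n ≤ pr n 2 k * (-(a / n) + 1) := by
    rw [div_le_iff₀ hn']
    refine (hII.trans hN).trans (le_of_eq ?_)
    rw [ha]
    field_simp
    ring
  have h5 : pr n 2 k * Real.exp (-(a / n)) ≤ IB / n := by
    have h6 : (pr n 2 k * Real.exp (-(a / n))) ^ n ≤ (IB / n) ^ n := by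
      rw [mul_pow, ← Real.exp_nat_mul]
      have h7 : (n : ℝ) * -(a / n) = -a := by
        field_simp
      rw [h7]
      exact hlo
    exact le_of_pow_le_pow_left₀ h.n0.ne' (by positivity) h6
  have h6 : Real.exp (-(a / n)) ≤ -(a / n) + 1 := le_of_mul_le_mul_left (h5.trans hIn) hcp
  have h7 : a / n = 0 := by
    by_contra hne
    have := Real.add_one_lt_exp (neg_ne_zero.2 hne)
    linarith
  have h8 : a = 0 := by
    rcases div_eq_zero_iff.1 h7 with h9 | h9
    · exact h9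
    · exact absurd h9 hn'.ne'
  have h9 : V ≤ 0 := by
    have h10 : (2 * (k : ℝ) + 1) / 4 * V = 0 := by
      rw [ha, div_eq_zero_iff] at h8
      rcases h8 with h8 | h8
      · exact h8
      · exact absurd h8 hcp.ne'
    have h11 : 0 < (2 * (k : ℝ) + 1) / 4 := by positivity
    rcases mul_eq_zero.1 h10 with h12 | h12
    · exact absurd h12 h11.ne'
    · exact h12.le
  have hIBl : I ≤ IB := by
    rw [h7, neg_zero, Real.exp_zero, mul_one, le_div_iff₀ hn'] at h5
    have h10 : 0 ≤ (2 * (k : ℝ) + 1) / 4 * V := by positivity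
    linarith
  -- the first conclusion
  have hSc := pl_cont (pl_sS k h.k0 hp1 hφ)
  have hvae : ∀ᵐ z ∂(gam n), vv k p φ z = 0 :=
    (integral_eq_zero_iff_of_nonneg (fun z => vv_nonneg k p φ z) iV).1 (le_antisymm h9 hV0)
  have hg : ∀ z : E n, ‖z‖ ^ 2 * sS k p φ z ^ 2 = 0 := by
    refine zero_of_ae ((continuous_norm.pow 2).mul (hSc.pow 2)) ?_
    filter_upwards [hvae] with z hz
    unfold vv at hz
    rcases div_eq_zero_iff.1 hz with h10 | h10
    · exact h10
    · have h11 : ‖z‖ ^ 2 + (inner ℝ (lf p • p) z : ℝ) ^ 2 = 0 :=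
        pow_eq_zero_iff (Nat.succ_ne_zero k) |>.1 h10
      have h12 : ‖z‖ ^ 2 = 0 := le_antisymm (by
        have := sq_nonneg (inner ℝ (lf p • p) z : ℝ)
        linarith) (sq_nonneg _)
      rw [h12, zero_mul]
  have hφp : ∀ y, φ y = inner ℝ p y := by
    intro y
    set z := NI p y with hz
    have hzy : NN p z = y := b9 y
    by_cases hz0 : z = 0
    · have hy0 : y = 0 := by
        rw [← hzy, hz0, ← hNL, map_zero]
      have h10 := hφ.hom 0 0
      rw [zero_smul, zero_mul] at h10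
      rw [hy0, h10, inner_zero_right]
    · have h10 : sS k p φ z = 0 := by
        rcases mul_eq_zero.1 (hg z) with h11 | h11
        · exact absurd (norm_eq_zero.1 (pow_eq_zero_iff two_ne_zero |>.1 h11)) hz0
        · exact pow_eq_zero_iff two_ne_zero |>.1 h11
      rw [sS_eq k hp1, sub_eq_zero] at h10
      have h11 : φ (NN p z) ^ 2 ≤ ‖z‖ ^ 2 + (inner ℝ (lf p • p) z) ^ 2 := by
        rw [← Y_eq hp1]
        refine sq_le_of ((hφ.le _).trans ?_)
        have := h.rho1
        nlinarith [norm_nonneg (NN p z)]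
      have h12 : (inner ℝ (lf p • p) z : ℝ) ^ 2 ≤ ‖z‖ ^ 2 + (inner ℝ (lf p • p) z) ^ 2 := by
        have := sq_nonneg ‖z‖
        linarith
      have h13 : φ (NN p z) = inner ℝ (lf p • p) z := by
        rcases lt_trichotomy (φ (NN p z)) (inner ℝ (lf p • p) z) with h14 | h14 | h14
        · exact absurd h10 (Pk_smono k h11 h12 h14).ne
        · exact h14
        · exact absurd h10 (Pk_smono k h12 h11 h14).ne'
      rw [hzy] at h13
      rw [h13, real_inner_smul_left, ← b7, hzy]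
  have hcN : Continuous fun z => NN p z := by
    have e : (fun z => NN p z) = fun z => NNL p z := by
      funext z
      rw [hNL]
    rw [e]
    exact (NNL p).continuous
  have hg2 : ∀ z, ak k φ (NN p z) * √((‖NN p z‖ ^ 2 - φ (NN p z) ^ 2) * ‖z‖ ^ 2) -
      ak k φ (NN p z) * √(B (NN p z) * ‖z‖ ^ 2) = 0 := by
    refine zero_of_int ?_ (fun z => sub_nonneg.2 (hpt z)) (iN.sub iB) ?_
    · unfold ak
      have c1 : Continuous fun z => ‖NN p z‖ ^ 2 - φ (NN p z) ^ 2 :=
        (hcN.norm.pow 2).sub ((hbd.1.comp hcN).pow 2)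
      exact ((c1.pow k).mul (Real.continuous_sqrt.comp (c1.mul (continuous_norm.pow 2)))).sub
        ((c1.pow k).mul (Real.continuous_sqrt.comp ((hBc.comp hcN).mul (continuous_norm.pow 2))))
    · rw [integral_sub iN iB]
      linarith
  intro y
  refine ⟨hφp y, ?_⟩
  set z := NI p y with hz
  have hzy : NN p z = y := b9 y
  by_cases hz0 : z = 0
  · have hy0 : y = 0 := by
      rw [← hzy, hz0, ← hNL, map_zero]
    have h1 := hB0 y
    have h2 := hBl y
    have h3 : ‖y‖ ^ 2 = 0 := by rw [hy0]; simp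
    have h4 := sq_nonneg (φ y)
    linarith
  · have h1 := hg2 z
    rw [hzy] at h1
    have hy0 : y ≠ 0 := by
      intro hy
      apply hz0
      rw [hz, hy]
      have h2 := b8 0
      rw [← hNL, map_zero] at h2
      exact h2
    have hyn := norm_pos_iff.2 hy0
    have h2 : 0 < ‖y‖ ^ 2 - φ y ^ 2 := by
      have h3 : |φ y| ≤ ρ * ‖y‖ := hφ.le y
      have hρ1 : ρ < 1 := lt_of_le_of_lt h.toHP.rr' h.r1
      have h4 : |φ y| < ‖y‖ := by nlinarith
      have h5 : |φ y| ^ 2 < ‖y‖ ^ 2 := pow_lt_pow_left₀ h4 (abs_nonneg _) two_ne_zero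
      rw [sq_abs] at h5
      linarith
    have h3 : 0 < ak k φ y := pow_pos h2 k
    rw [← mul_sub] at h1
    rcases mul_eq_zero.1 h1 with h4 | h4
    · exact absurd h4 h3.ne'
    · rw [sub_eq_zero, Real.sqrt_inj (by positivity) (mul_nonneg (hB0 _) (sq_nonneg _))] at h4
      exact (mul_right_cancel₀ (by
        have := norm_pos_iff.2 hz0
        positivity) h4).symm

end Pool.Agent.Q183.CR
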