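import Pool.Agent.Q183.CR.A

/-!
# The sharper bound of the derivatives, the derivative of the centre
-/

set_option autoImplicit false

open MeasureTheory Metric Set Filter Topology InnerProductGeometry

namespace Pool.Agent.Q183.CR

open Pool.Agent.Q183.CN Pool.Agent.Q183.HD
open Pool.Agent.H241R3.FV (Sph RChart gnorm)
open Pool.Agent.W716.FV (E gam gd dir)
open Pool.Agent.Q188.FC
open Pool.Agent.Q183.CF (UE FE UE_zero UE_ne abs_UE_le UE_hom UE_sq_le)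

variable {n : ℕ} {M : Type} [MetricSpace M]

/-- the sharper bound -/
noncomputable def BB (e : Sph n → M → ℝ) (q : M) (y : E n) : ℝ :=
  ((√(‖y‖ ^ 2 - UE e q y ^ 2) + √(‖y‖ ^ 2 - UE e q (-y) ^ 2)) / 2) ^ 2

theorem BB_nonneg (e : Sph n → M → ℝ) (q : M) (y : E n) : 0 ≤ BB e q y := sq_nonneg _

theorem half_sq {Y a b : ℝ} (ha : a ^ 2 ≤ Y) (hb : b ^ 2 ≤ Y) :
    ((√(Y - a ^ 2) + √(Y - b ^ 2)) / 2) ^ 2 ≤ Y - ((a - b) / 2) ^ 2 ∧
    (Y - ((a - b) / 2) ^ 2 ≤ ((√(Y - a ^ 2) + √(Y - b ^ 2)) / 2) ^ 2 → 0 < Y → b = -a) := by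
  have hA : 0 ≤ Y - a ^ 2 := by linarith
  have hB : 0 ≤ Y - b ^ 2 := by linarith
  have h1 : √(Y - a ^ 2) ^ 2 = Y - a ^ 2 := Real.sq_sqrt hA
  have h2 : √(Y - b ^ 2) ^ 2 = Y - b ^ 2 := Real.sq_sqrt hB
  set s := √(Y - a ^ 2) with hs
  set t := √(Y - b ^ 2) with ht
  have hs0 : 0 ≤ s := Real.sqrt_nonneg _
  have ht0 : 0 ≤ t := Real.sqrt_nonneg _
  have hY : 0 ≤ Y := (sq_nonneg a).trans ha
  have hab : 0 ≤ Y + a * b := by
    nlinarith [sq_nonneg (a + b), sq_nonneg (a - b)]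
  have h3 : (s * t) ^ 2 = (Y + a * b) ^ 2 - Y * (a + b) ^ 2 := by
    rw [mul_pow, h1, h2]
    ring
  have h4 : s * t ≤ Y + a * b := by
    refine abs_le_of_sq_le_sq' ?_ hab |>.2
    rw [h3]
    have : 0 ≤ Y * (a + b) ^ 2 := by positivity
    linarith
  constructor
  · nlinarith
  · intro h5 hY0
    have h6 : Y + a * b ≤ s * t := by nlinarith
    have h7 : s * t = Y + a * b := le_antisymm h4 h6
    rw [h7] at h3
    have h8 : Y * (a + b) ^ 2 = 0 := by linarith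
    rcases mul_eq_zero.1 h8 with h9 | h9
    · exact absurd h9 hY0.ne'
    · have := pow_eq_zero_iff two_ne_zero |>.1 h9
      linarith

theorem BB_le (e : Sph n → M → ℝ) (q : M) (y : E n) : BB e q y ≤ ‖y‖ ^ 2 - FE e q y ^ 2 := by
  have u1 := UE_sq_le e q y
  have u2 := UE_sq_le e q (-y)
  rw [norm_neg] at u2
  exact (half_sq u1 u2).1

theorem BB_eq (e : Sph n → M → ℝ) (q : M) (y : E n) (hy : y ≠ 0)
    (h : BB e q y = ‖y‖ ^ 2 - FE e q y ^ 2) : UE e q (-y) = -UE e q y := by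
  have u1 := UE_sq_le e q y
  have u2 := UE_sq_le e q (-y)
  rw [norm_neg] at u2
  have := norm_pos_iff.2 hy
  exact (half_sq u1 u2).2 h.ge (by positivity)

theorem BB_cont {κ : ℝ} {e : Sph n → M → ℝ} (hl : UL κ e) (q : M) : Continuous (BB e q) := by
  have hc : Continuous (UE e q) := by
    have : LipschitzWith (Real.toNNReal |κ|) (UE e q) := by
      refine LipschitzWith.of_dist_le_mul fun x y => ?_
      rw [Real.dist_eq, dist_eq_norm, Real.coe_toNNReal _ (abs_nonneg _)]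
      exact (hl q x y).trans (mul_le_mul_of_nonneg_right (le_abs_self _) (norm_nonneg _))
    exact this.continuous
  unfold BB
  exact (((Real.continuous_sqrt.comp ((continuous_norm.pow 2).sub (hc.pow 2))).add
    (Real.continuous_sqrt.comp ((continuous_norm.pow 2).sub
      ((hc.comp continuous_neg).pow 2)))).div_const 2).pow 2

/-- derivatives with the bound `B` -/
def GoodB (φ : E n → E n → ℝ) (B : E n → ℝ) (c₀ : E n) (G : Matrix (Fin n) (Fin n) ℝ) : Prop :=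
  ∃ D : E n → E n →L[ℝ] ℝ, Measurable D ∧ ∀ᵐ y ∂(volume : Measure (E n)),
    HasFDerivAt (fun c => φ c y) (D y) c₀ ∧
    ∀ v : E n, (D y v) ^ 2 ≤ B y * ∑ i, ∑ j, v i * G i j * v j

theorem chart_B {κ ρ : ℝ} (hκ1 : κ ≤ 1) {bd : Sph n → M}
    {e : Sph n → M → ℝ} (he : CM.Dk ρ bd e) (hl : UL κ e) (C : RChart n M) :
    ∀ᵐ c ∂(volume : Measure (E n)), c ∈ C.U →
      GoodB (fun c' => FE e (C.map c')) (BB e (C.map c)) c (C.G c) := by
  filter_upwards [UE_chart hκ1 he hl C] with c hc hcU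
  obtain ⟨D, hDm, hD⟩ := hc hcU
  refine ⟨fun y => (1 / 2 : ℝ) • (D y - D (-y)), ?_, ?_⟩
  · exact ((hDm.sub (hDm.comp measurable_neg))).const_smul (1 / 2 : ℝ)
  · have hD' : ∀ᵐ y ∂(volume : Measure (E n)), HasFDerivAt (fun c' => UE e (C.map c') (-y))
        (D (-y)) c ∧ ∀ v : E n, (D (-y) v) ^ 2 ≤
        (‖-y‖ ^ 2 - UE e (C.map c) (-y) ^ 2) * ∑ i, ∑ j, v i * C.G c i j * v j :=
      (Measure.measurePreserving_neg (volume : Measure (E n))).quasiMeasurePreserving.ae hD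
    filter_upwards [hD, hD'] with y hy hy'
    constructor
    · have h2 := (hy.1.sub hy'.1).const_smul (1 / 2 : ℝ)
      refine h2.congr_of_eventuallyEq (Eventually.of_forall fun c' => ?_)
      show FE e (C.map c') y = (1 / 2 : ℝ) • (UE e (C.map c') y - UE e (C.map c') (-y))
      unfold FE
      rw [smul_eq_mul]
      ring
    · intro v
      have h2 := hy.2 v
      have h3 := hy'.2 v
      rw [norm_neg] at h3
      have hg : 0 ≤ ∑ i, ∑ j, v i * C.G c i j * v j := by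
        rw [← Pool.Agent.W753.FV.BC.gnorm_sq (C.pos_G c hcU) v]
        positivity
      set g := ∑ i, ∑ j, v i * C.G c i j * v j with hgd
      have u1 := UE_sq_le e (C.map c) y
      have u2 := UE_sq_le e (C.map c) (-y)
      rw [norm_neg] at u2
      have a1 : |D y v| ≤ √(‖y‖ ^ 2 - UE e (C.map c) y ^ 2) * √g := by
        rw [← Real.sqrt_mul (by linarith)]
        exact Real.abs_le_sqrt h2
      have a2 : |D (-y) v| ≤ √(‖y‖ ^ 2 - UE e (C.map c) (-y) ^ 2) * √g := by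
        rw [← Real.sqrt_mul (by linarith)]
        exact Real.abs_le_sqrt h3
      have h5 : ((1 / 2 : ℝ) • (D y - D (-y))) v = (D y v - D (-y) v) / 2 := by
        rw [smul_apply, sub_apply, smul_eq_mul]
        ring
      rw [h5]
      have a3 : |(D y v - D (-y) v) / 2| ≤ (√(‖y‖ ^ 2 - UE e (C.map c) y ^ 2) +
          √(‖y‖ ^ 2 - UE e (C.map c) (-y) ^ 2)) / 2 * √g := by
        rw [abs_div, abs_two]
        have := abs_sub (D y v) (D (-y) v)
        linarith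
      have a4 := pow_le_pow_left₀ (abs_nonneg _) a3 2
      rw [sq_abs, mul_pow, Real.sq_sqrt hg] at a4
      exact a4

/-- the derivative of the centre, with the equality case -/
theorem center_diff' {k : ℕ} {κ ρ κ' ρ' Lm eps : ℝ}
    (h : HJ n k κ ρ κ' ρ' Lm eps) {U : Set (E n)} {φ : E n → E n → ℝ}
    (hφ : CM.LF κ ρ U φ) {s : Set (E n)} {f : E n → E n} (hsU : s ⊆ U)
    (hf : ∀ c ∈ s, ‖f c‖ < ρ ∧ XX k (f c) (φ c) = 0) {c₀ : E n} (hc₀ : c₀ ∈ s)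
    {G : Matrix (Fin n) (Fin n) ℝ} (hG : G.PosDef) {B : E n → ℝ} (hBc : Continuous B)
    (hBn : ∀ y, 0 ≤ B y) (hBl : ∀ y, B y ≤ ‖y‖ ^ 2 - φ c₀ y ^ 2) (hD : GoodB φ B c₀ G) :
    ∃ f' : E n →L[ℝ] E n, HasFDerivWithinAt f f' s c₀ ∧
      |f'.det| ≤ (lf (f c₀))⁻¹ * √G.det ∧ ((lf (f c₀))⁻¹ * √G.det ≤ |f'.det| →
        ∀ y, φ c₀ y = inner ℝ (f c₀) y ∧ B y = ‖y‖ ^ 2 - φ c₀ y ^ 2) := by
  obtain ⟨D, hDm, hDd⟩ := hD
  have hGn : ∀ v : E n, 0 ≤ ∑ i, ∑ j, v i * G i j * v j := fun v => by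
    rw [← Pool.Agent.W753.FV.BC.gnorm_sq hG v]
    positivity
  obtain ⟨r₀, K₀, hr₀, hK₀, hball, hlip⟩ := hφ.2 c₀ (hsU hc₀)
  obtain ⟨hp₀', hz₀⟩ := hf c₀ hc₀
  have hrr := h.toHP.rr'
  set p₀ := f c₀ with hp₀d
  have hp₀ : ‖p₀‖ ≤ ρ' := hp₀'.le.trans hrr
  have hbd : ∀ c, Bd (φ c) := fun c => ck_bd h.rho1 (hφ.1 c)
  obtain ⟨T, hT, hTv⟩ := XX_chart k h.r0'.le h.r1 hp₀ hbd (c₀ := c₀) hr₀
    (fun c hc y => hlip c hc c₀ (mem_ball_self hr₀) y) hDm (hDd.mono fun y hy => hy.1)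
  set L := LX k p₀ (φ c₀) with hLd
  obtain ⟨hL0, hdet⟩ := jac h hp₀ (hφ.1 c₀) hz₀ hG hDm (hDd.mono fun y hy v =>
    (hy.2 v).trans (mul_le_mul_of_nonneg_right (hBl y) (hGn v))) hTv
  set Le : E n ≃L[ℝ] E n := L.toContinuousLinearEquivOfDetNeZero hL0 with hLe
  have hLe1 : ∀ v, Le v = L v := fun v => rfl
  have hLe2 : ∀ v, L (Le.symm v) = v := fun v => by rw [← hLe1, Le.apply_symm_apply]
  have h6 : L.comp (-((Le.symm : E n →L[ℝ] E n).comp T)) = -T := by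
    ext v
    simp only [ContinuousLinearMap.comp_apply, _root_.neg_apply, map_neg]
    have h7 : L ((Le.symm : E n →L[ℝ] E n) (T v)) = T v := hLe2 _
    rw [h7]
  refine ⟨-((Le.symm : E n →L[ℝ] E n).comp T), ?_, ?_, ?_⟩
  · obtain ⟨K, δ₁, hK, hδ₁, hLZ⟩ := zero_lip h.toHP
    obtain ⟨Ks, hKs, hst⟩ := strict (n := n) k h.r0'.le h.r1
    obtain ⟨Cs, hCs0, hCs⟩ : ∃ Cs : ℝ, 0 < Cs ∧ ∀ v, ‖Le.symm v‖ ≤ Cs * ‖v‖ := by
      refine ⟨‖(Le.symm : E n →L[ℝ] E n)‖ + 1, by positivity, fun v => ?_⟩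
      have := (Le.symm : E n →L[ℝ] E n).le_opNorm v
      have h6 : ‖(Le.symm : E n →L[ℝ] E n)‖ * ‖v‖ ≤ (‖(Le.symm : E n →L[ℝ] E n)‖ + 1) * ‖v‖ := by
        gcongr
        linarith
      exact this.trans h6
    rw [hasFDerivWithinAt_iff_isLittleO, Asymptotics.isLittleO_iff]
    intro ε hε
    set B : ℝ := K₀ + K * K₀ with hB
    have hB0 : 0 ≤ B := by positivity
    set ε₂ : ℝ := ε / (2 * Cs) with hε₂
    have hε₂0 : 0 < ε₂ := by positivity
    rw [hasFDerivAt_iff_isLittleO, Asymptotics.isLittleO_iff] at hT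
    have hT' := hT hε₂0
    set τ : ℝ := min (min r₀ (δ₁ / (K₀ + 1))) (ε / (2 * Cs * (Ks * B * (K * K₀) + 1))) with hτ
    have hτ0 : 0 < τ := by
      rw [hτ]
      refine lt_min (lt_min hr₀ (by positivity)) ?_
      positivity
    filter_upwards [self_mem_nhdsWithin, mem_nhdsWithin_of_mem_nhds (ball_mem_nhds c₀ hτ0),
      mem_nhdsWithin_of_mem_nhds hT'] with c hcs hcb hcT
    obtain ⟨hp', hz⟩ := hf c hcs
    set p := f c with hpd
    have hp : ‖p‖ ≤ ρ' := hp'.le.trans hrr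
    rw [mem_ball, dist_eq_norm] at hcb
    have hcr : c ∈ ball c₀ r₀ := by
      rw [mem_ball, dist_eq_norm]
      exact hcb.trans_le ((min_le_left _ _).trans (min_le_left _ _))
    have hcδ : K₀ * ‖c - c₀‖ ≤ δ₁ := by
      have h4 := (hcb.trans_le ((min_le_left _ _).trans (min_le_right _ _))).le
      rw [le_div_iff₀ (by positivity)] at h4
      nlinarith [norm_nonneg (c - c₀)]
    have hcl : ∀ y, |φ c y - φ c₀ y| ≤ K₀ * ‖c - c₀‖ * ‖y‖ :=
      fun y => hlip c hcr c₀ (mem_ball_self hr₀) y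
    have hpp : ‖p - p₀‖ ≤ K * (K₀ * ‖c - c₀‖) :=
      hLZ p p₀ (φ c) (φ c₀) (K₀ * ‖c - c₀‖) hp hp₀ (hφ.1 c) (hφ.1 c₀) (by positivity) hcδ hcl
        hz hz₀
    have hB1 : K₀ * ‖c - c₀‖ ≤ B * ‖c - c₀‖ := by
      rw [hB]
      have : 0 ≤ K * K₀ * ‖c - c₀‖ := by positivity
      linarith
    have hB2 : ‖p - p₀‖ ≤ B * ‖c - c₀‖ := by
      rw [hB]
      have : 0 ≤ K₀ * ‖c - c₀‖ := by positivity
      linarith
    have hst' := hst p₀ p p₀ (φ c₀) (φ c) (B * ‖c - c₀‖) hp₀ hp hp₀ (hbd c₀) (hbd c)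
      (by positivity) (fun y => (hcl y).trans (mul_le_mul_of_nonneg_right hB1 (norm_nonneg y)))
      hB2 (by rw [sub_self, norm_zero]; positivity)
    rw [hz, zero_sub] at hst'
    -- the identity
    have hid : p - p₀ - (-((Le.symm : E n →L[ℝ] E n).comp T)) (c - c₀) =
        Le.symm ((L (p - p₀) + XX k p₀ (φ c)) - (XX k p₀ (φ c) - XX k p₀ (φ c₀) - T (c - c₀))) := by
      apply Le.injective
      rw [Le.apply_symm_apply, hLe1, map_sub]
      simp only [_root_.neg_apply, ContinuousLinearMap.comp_apply, map_neg]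
      have h7 : L ((Le.symm : E n →L[ℝ] E n) (T (c - c₀))) = T (c - c₀) := hLe2 _
      rw [h7, hz₀]
      abel
    rw [hid]
    refine (hCs _).trans ?_
    have h8 : ‖(L (p - p₀) + XX k p₀ (φ c)) - (XX k p₀ (φ c) - XX k p₀ (φ c₀) - T (c - c₀))‖ ≤
        Ks * (B * ‖c - c₀‖) * ‖p - p₀‖ + ε₂ * ‖c - c₀‖ := by
      refine (norm_sub_le _ _).trans (add_le_add ?_ hcT)
      have h9 : ‖L (p - p₀) + XX k p₀ (φ c)‖ = ‖-XX k p₀ (φ c) - L (p - p₀)‖ := by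
        rw [← norm_neg]
        congr 1
        abel
      rw [h9]
      exact hst'
    have h10 : ‖c - c₀‖ * (2 * Cs * (Ks * B * (K * K₀) + 1)) ≤ ε := by
      have h11 := (hcb.trans_le (min_le_right _ _)).le
      rwa [le_div_iff₀ (by positivity)] at h11
    have h12 : Ks * (B * ‖c - c₀‖) * ‖p - p₀‖ ≤ Ks * B * (K * K₀) * ‖c - c₀‖ * ‖c - c₀‖ := by
      calc Ks * (B * ‖c - c₀‖) * ‖p - p₀‖ ≤ Ks * (B * ‖c - c₀‖) * (K * (K₀ * ‖c - c₀‖)) := by
            gcongr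
        _ = _ := by ring
    have h13 : Cs * (Ks * B * (K * K₀) * ‖c - c₀‖) ≤ ε / 2 := by
      have h14 : 0 ≤ ‖c - c₀‖ * Cs := by positivity
      nlinarith
    calc Cs * ‖(L (p - p₀) + XX k p₀ (φ c)) - (XX k p₀ (φ c) - XX k p₀ (φ c₀) - T (c - c₀))‖
        ≤ Cs * (Ks * B * (K * K₀) * ‖c - c₀‖ * ‖c - c₀‖ + ε₂ * ‖c - c₀‖) := by
          gcongr
          exact h8.trans (by linarith)
      _ = (Cs * (Ks * B * (K * K₀) * ‖c - c₀‖) + Cs * ε₂) * ‖c - c₀‖ := by ring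
      _ ≤ (ε / 2 + Cs * ε₂) * ‖c - c₀‖ := by gcongr
      _ = ε * ‖c - c₀‖ := by
          rw [hε₂]
          field_simp
          ring
  · rw [Pool.Agent.Q188.FC.Bet.CF.det_neg_comp _ T L hL0 h6, div_le_iff₀ (abs_pos.2 hL0)]
    calc |T.det| ≤ (lf p₀)⁻¹ * |L.det| * √G.det := hdet
      _ = _ := by ring
  · intro heq
    rw [Pool.Agent.Q188.FC.Bet.CF.det_neg_comp _ T L hL0 h6, le_div_iff₀ (abs_pos.2 hL0)] at heq
    exact jac_eq h hp₀ (hφ.1 c₀) hz₀ hBc hBn hBl hG hDm (hDd.mono fun y hy => hy.2) hTv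
      (by
        refine le_trans (le_of_eq ?_) heq
        ring)

end Pool.Agent.Q183.CR
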