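import Pool.Agent.Q183.CR.B

/-!
# Fillings of minimal volume: the equality case of the area formula
-/

set_option autoImplicit false

open MeasureTheory Metric Set Filter Topology InnerProductGeometry

namespace Pool.Agent.Q183.CR

open Pool.Agent.Q183.CN Pool.Agent.Q183.HD
open Pool.Agent.H241R3.FV (Sph RChart gnorm Fill)
open Pool.Agent.W716.FV (E gam gd dir)
open Pool.Agent.Q188.FC
open Pool.Agent.Q183.CF (UE FE UE_zero UE_ne abs_UE_le UE_hom UE_sq_le)

theorem cont_sq {n : ℕ} {U : Set (E n)} {G : E n → Matrix (Fin n) (Fin n) ℝ}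
    (hG : ContinuousOn G U) : ContinuousOn (fun c => ENNReal.ofReal √(G c).det) U := by
  have h1 : ContinuousOn (fun c => (G c).det) U :=
    (continuous_id.matrix_det).comp_continuousOn hG
  exact ENNReal.continuous_ofReal.comp_continuousOn (Real.continuous_sqrt.comp_continuousOn h1)

/-- the estimate in one chart, equality case -/
theorem chart_eq {n k : ℕ} {κ ρ κ' ρ' Lm eps : ℝ}
    (h : HJ n k κ ρ κ' ρ' Lm eps) {U : Set (E n)} {φ : E n → E n → ℝ}
    (hφ : CM.LF κ ρ U φ) {G : E n → Matrix (Fin n) (Fin n) ℝ} (hG : ∀ c ∈ U, (G c).PosDef)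
    (hGc : ContinuousOn G U) {B : E n → E n → ℝ} (hBc : ∀ c, Continuous (B c))
    (hBn : ∀ c y, 0 ≤ B c y) (hBl : ∀ c y, B c y ≤ ‖y‖ ^ 2 - φ c y ^ 2)
    (hae : ∀ᵐ c ∂(volume : Measure (E n)), c ∈ U → GoodB φ (B c) c (G c))
    {D : Set (E n)} (hD : MeasurableSet D) (hDU : D ⊆ U) {s : Set (E n)} {f : E n → E n}
    (hs : s = {c | c ∈ D ∧ ∃ p : E n, ‖p‖ < ρ ∧ XX k p (φ c) = 0})
    (hf : ∀ c ∈ s, ‖f c‖ < ρ ∧ XX k (f c) (φ c) = 0)
    (hfin : ∫⁻ c in D, ENNReal.ofReal √(G c).det ≠ ⊤)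
    (heq : ∫⁻ c in D, ENNReal.ofReal √(G c).det ≤ ∫⁻ p in f '' s, ENNReal.ofReal (lf p)) :
    ∀ᵐ c ∂(volume : Measure (E n)), c ∈ D →
      c ∈ s ∧ ∀ y, φ c y = inner ℝ (f c) y ∧ B c y = ‖y‖ ^ 2 - φ c y ^ 2 := by
  have hsm : MeasurableSet s := by
    rw [hs]
    exact meas_s h hφ hD hDU
  have hsD : s ⊆ D := by
    rw [hs]
    exact fun c hc => hc.1
  have hsU : s ⊆ U := hsD.trans hDU
  set N : Set (E n) := toMeasurable volume {c | ¬ (c ∈ U → GoodB φ (B c) c (G c))} with hN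
  have hN0 : volume N = 0 := by
    rw [hN, measure_toMeasurable]
    exact hae
  have hNm : MeasurableSet N := measurableSet_toMeasurable _ _
  have hgood : ∀ c ∈ s \ N, GoodB φ (B c) c (G c) := by
    intro c hc
    by_contra hcon
    apply hc.2
    apply subset_toMeasurable
    intro hh
    exact hcon (hh (hsU hc.1))
  have hder : ∀ c : E n, ∃ f' : E n →L[ℝ] E n, c ∈ s \ N → HasFDerivWithinAt f f' (s \ N) c ∧
      |f'.det| ≤ (lf (f c))⁻¹ * √(G c).det ∧ ((lf (f c))⁻¹ * √(G c).det ≤ |f'.det| →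
        ∀ y, φ c y = inner ℝ (f c) y ∧ B c y = ‖y‖ ^ 2 - φ c y ^ 2) := by
    intro c
    by_cases hc : c ∈ s \ N
    · obtain ⟨f', h6, h7, h8⟩ := center_diff' h hφ hsU hf hc.1 (hG c (hsU hc.1)) (hBc c) (hBn c)
        (hBl c) (hgood c hc)
      exact ⟨f', fun _ => ⟨h6.mono sdiff_subset, h7, h8⟩⟩
    · exact ⟨0, fun h => absurd h hc⟩
  choose f' hf' using hder
  have hA := wa n (s \ N) f f' (hsm.diff hNm) (fun x hx => (hf' x hx).1)
    (fun p => ENNReal.ofReal (lf p)) (Pool.Agent.Q188.FC.Bet.CA.lf_measurable n)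
  have hnull : volume (f '' (s ∩ N)) = 0 := by
    refine nl n s f ?_ (s ∩ N) inter_subset_left (measure_mono_null inter_subset_right hN0)
    exact center_lip h hφ hsU hf
  have hsub : f '' s ⊆ f '' (s \ N) ∪ f '' (s ∩ N) := by
    rintro _ ⟨x, hx, rfl⟩
    by_cases hxN : x ∈ N
    · exact Or.inr ⟨x, ⟨hx, hxN⟩, rfl⟩
    · exact Or.inl ⟨x, ⟨hx, hxN⟩, rfl⟩
  have hlf : ∀ x ∈ s \ N, 0 < lf (f x) := by
    intro x hx
    have h1 := (bst (((hf x hx.1).1.le.trans h.toHP.rr').trans_lt h.r1)).1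
    linarith
  have hpt : ∀ x ∈ s \ N, ENNReal.ofReal |(f' x).det| * ENNReal.ofReal (lf (f x)) ≤
      ENNReal.ofReal √(G x).det := by
    intro x hx
    have hlf := hlf x hx
    rw [← ENNReal.ofReal_mul (abs_nonneg _)]
    refine ENNReal.ofReal_le_ofReal ?_
    calc |(f' x).det| * lf (f x) ≤ (lf (f x))⁻¹ * √(G x).det * lf (f x) :=
          mul_le_mul_of_nonneg_right (hf' x hx).2.1 hlf.le
      _ = √(G x).det := by
          field_simp
  have hmN : MeasurableSet (s \ N) := hsm.diff hNm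
  have c1 : ∫⁻ p in f '' s, ENNReal.ofReal (lf p) ≤
      ∫⁻ x in s \ N, ENNReal.ofReal |(f' x).det| * ENNReal.ofReal (lf (f x)) := by
    calc ∫⁻ p in f '' s, ENNReal.ofReal (lf p)
        ≤ ∫⁻ p in f '' (s \ N) ∪ f '' (s ∩ N), ENNReal.ofReal (lf p) := lintegral_mono_set hsub
      _ ≤ (∫⁻ p in f '' (s \ N), ENNReal.ofReal (lf p)) +
          ∫⁻ p in f '' (s ∩ N), ENNReal.ofReal (lf p) := lintegral_union_le _ _ _
      _ = ∫⁻ p in f '' (s \ N), ENNReal.ofReal (lf p) := by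
          rw [setLIntegral_measure_zero _ _ hnull, add_zero]
      _ ≤ _ := hA
  have c2 : ∫⁻ x in s \ N, ENNReal.ofReal |(f' x).det| * ENNReal.ofReal (lf (f x)) ≤
      ∫⁻ x in s \ N, ENNReal.ofReal √(G x).det := setLIntegral_mono' hmN hpt
  have c3 : ∫⁻ x in s \ N, ENNReal.ofReal √(G x).det ≤
      ∫⁻ x in D, ENNReal.ofReal √(G x).det := lintegral_mono_set (sdiff_subset.trans hsD)
  have hgc := cont_sq hGc
  -- equality in the Jacobian
  have e1 : ∀ᵐ x ∂(volume : Measure (E n)), x ∈ s \ N →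
      ENNReal.ofReal |(f' x).det| * ENNReal.ofReal (lf (f x)) = ENNReal.ofReal √(G x).det := by
    have h1 := ae_eq_of_ae_le_of_lintegral_le (μ := volume.restrict (s \ N))
      (f := fun x => ENNReal.ofReal |(f' x).det| * ENNReal.ofReal (lf (f x)))
      (g := fun x => ENNReal.ofReal √(G x).det)
      ((ae_restrict_iff' hmN).2 (ae_of_all _ hpt)) (ne_top_of_le_ne_top hfin (c2.trans c3))
      ((hgc.mono (sdiff_subset.trans hsU)).aemeasurable hmN) (c3.trans (heq.trans c1))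
    exact (ae_restrict_iff' hmN).1 h1
  -- the complement
  have e2 : ∫⁻ x in D \ (s \ N), ENNReal.ofReal √(G x).det = 0 := by
    have h1 := lintegral_inter_add_sdiff (μ := volume) (fun x => ENNReal.ofReal √(G x).det) D hmN
    have h2 : D ∩ (s \ N) = s \ N := inter_eq_right.2 (sdiff_subset.trans hsD)
    rw [h2] at h1
    have h3 : ∫⁻ x in D, ENNReal.ofReal √(G x).det ≤ ∫⁻ x in s \ N, ENNReal.ofReal √(G x).det :=
      heq.trans (c1.trans c2)
    have h4 : ∫⁻ x in s \ N, ENNReal.ofReal √(G x).det ≠ ⊤ := ne_top_of_le_ne_top hfin c3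
    rw [← h1] at h3
    have h5 : ∫⁻ x in D \ (s \ N), ENNReal.ofReal √(G x).det ≤ 0 := by
      by_contra hc
      push Not at hc
      exact absurd h3 (not_le.2 (ENNReal.lt_add_right h4 hc.ne'))
    exact le_antisymm h5 zero_le
  have hmD : MeasurableSet (D \ (s \ N)) := hD.diff hmN
  have e3 : ∀ᵐ x ∂(volume : Measure (E n)), x ∈ D \ (s \ N) → ENNReal.ofReal √(G x).det = 0 := by
    have h1 := (lintegral_eq_zero_iff' (μ := volume.restrict (D \ (s \ N)))
      ((hgc.mono (sdiff_subset.trans hDU)).aemeasurable hmD)).1 e2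
    exact (ae_restrict_iff' hmD).1 h1
  filter_upwards [e1, e3] with c hc1 hc3 hcD
  have hcs : c ∈ s \ N := by
    by_contra hcon
    have h1 := hc3 ⟨hcD, hcon⟩
    rw [ENNReal.ofReal_eq_zero] at h1
    have h2 : 0 < √(G c).det := Real.sqrt_pos.2 (hG c (hDU hcD)).det_pos
    linarith
  refine ⟨hcs.1, (hf' c hcs).2.2 ?_⟩
  have h1 := hc1 hcs
  have hl := hlf c hcs
  rw [← ENNReal.ofReal_mul (abs_nonneg _), ENNReal.ofReal_eq_ofReal_iff (by positivity)
    (Real.sqrt_nonneg _)] at h1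
  rw [← h1]
  refine le_of_eq ?_
  field_simp

/-- the volume of the part over a closed set which contains all centres -/
theorem vol_sub {d k : ℕ} {κ ρ κ' ρ' Lm eps : ℝ} (h : HJ (d + 1) k κ ρ κ' ρ' Lm eps) {M : Type}
    [MetricSpace M] (S : Fill d M) {e : Sph (d + 1) → M → ℝ} (he : CM.Dk ρ S.bd e) (hl : UL κ e)
    {A : Set M} (hA : IsClosed A)
    (hcv : ∀ p : E (d + 1), ‖p‖ < ρ → ∃ q ∈ A, XX k p (FE e q) = 0) :
    ∫⁻ p in ball (0 : E (d + 1)) ρ, ENNReal.ofReal (lf p) ≤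
      ∑' i, ∫⁻ c in (S.chart i).D ∩ {c | (S.chart i).map c ∈ A},
        ENNReal.ofReal √((S.chart i).G c).det := by
  classical
  have := S.countable
  have hκ1 : κ ≤ 1 := h.k1'
  have hrr := h.toHP.rr'
  have hρ1 : ρ < 1 := lt_of_le_of_lt h.toHP.rr' h.r1
  set φ : S.ι → E (d + 1) → E (d + 1) → ℝ := fun i c => FE e ((S.chart i).map c) with hφ
  set DD : S.ι → Set (E (d + 1)) := fun i => (S.chart i).D ∩ {c | (S.chart i).map c ∈ A} with hDD
  have hDm : ∀ i, MeasurableSet (DD i) := by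
    intro i
    have hc : ContinuousOn (S.chart i).map (S.chart i).U := by
      intro p hp
      refine ContinuousAt.continuousWithinAt ?_
      obtain ⟨r, hr, hrU, hh⟩ := Pool.Agent.H241R3.FV.TLoc.taskLoc (d + 1) M (S.chart i) p hp 1
        one_pos
      obtain ⟨K, hK, hKg⟩ := Pool.Agent.H241R3.FV.TDiff.gnorm_le ((S.chart i).G p)
      rw [Metric.continuousAt_iff]
      intro ε hε
      refine ⟨min r (ε / (K + 1)), lt_min hr (by positivity), fun y hy => ?_⟩
      have h1 := hh y (mem_ball.2 (hy.trans_le (min_le_left _ _))) p (mem_ball_self hr)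
      have h2 := hKg (y - p)
      have h3 := hy.trans_le (min_le_right _ _)
      rw [dist_eq_norm, lt_div_iff₀ (by positivity)] at h3
      calc dist ((S.chart i).map y) ((S.chart i).map p) ≤ (K + 1) * ‖y - p‖ := by linarith
        _ < ε := by linarith
    have h1 : DD i = (S.chart i).D \ ((S.chart i).U ∩ (S.chart i).map ⁻¹' Aᶜ) := by
      ext c
      constructor
      · rintro ⟨h2, h3⟩
        exact ⟨h2, fun hh => hh.2 h3⟩
      · rintro ⟨h2, h3⟩
        refine ⟨h2, ?_⟩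
        by_contra hcon
        exact h3 ⟨(S.chart i).D_sub h2, hcon⟩
    rw [h1]
    exact (S.chart i).meas_D.diff
      (hc.isOpen_inter_preimage (S.chart i).isOpen_U hA.isOpen_compl).measurableSet
  set s : S.ι → Set (E (d + 1)) := fun i =>
    {c | c ∈ DD i ∧ ∃ p : E (d + 1), ‖p‖ < ρ ∧ XX k p (φ i c) = 0} with hs
  set f : S.ι → E (d + 1) → E (d + 1) := fun i c =>
    if h : ∃ p : E (d + 1), ‖p‖ < ρ ∧ XX k p (φ i c) = 0 then h.choose else 0 with hf
  have hfs : ∀ i, ∀ c ∈ s i, ‖f i c‖ < ρ ∧ XX k (f i c) (φ i c) = 0 := by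
    intro i c hc
    have h := hc.2
    rw [hf]
    simp only
    rw [dif_pos h]
    exact h.choose_spec
  have hcov : ball (0 : E (d + 1)) ρ ⊆ ⋃ i, f i '' s i := by
    intro p hp
    rw [mem_ball_zero_iff] at hp
    obtain ⟨q, hqA, hq⟩ := hcv p hp
    rcases S.cover q with ⟨x, rfl⟩ | ⟨i, c, hc, rfl⟩
    · exfalso
      have e1 : FE e (S.bd x) = fun y => (inner ℝ (ρ • (x : E (d + 1))) y : ℝ) :=
        funext fun y => CM.FE_bd he x y
      have e3 : ‖ρ • (x : E (d + 1))‖ = ρ := by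
        rw [norm_smul, sph_norm, mul_one, Real.norm_of_nonneg h.r0.le]
      rw [e1] at hq
      have hpos := XX_lin_pos k h.r0.le hρ1 hp.le (e3.le.trans hρ1.le) (by
        intro h0
        rw [← h0, e3] at hp
        exact lt_irrefl _ hp)
      rw [hq, inner_zero_left] at hpos
      exact lt_irrefl _ hpos
    · have hcs : c ∈ s i := ⟨⟨hc, hqA⟩, p, hp, hq⟩
      obtain ⟨g1, g2⟩ := hfs i c hcs
      refine mem_iUnion.2 ⟨i, c, hcs, ?_⟩
      exact uniq h.toHP (g1.le.trans hrr) (hp.le.trans hrr) (FE_Ck he hl _) g2 hq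
  have hchart : ∀ i, ∫⁻ p in f i '' s i, ENNReal.ofReal (lf p) ≤
      ∫⁻ c in DD i, ENNReal.ofReal √((S.chart i).G c).det := by
    intro i
    obtain ⟨q1, q2⟩ := FE_chart hκ1 he hl (S.chart i)
    exact chart_area h q1 (S.chart i).pos_G q2 (hDm i)
      (inter_subset_left.trans (S.chart i).D_sub) rfl (hfs i)
  calc ∫⁻ p in ball (0 : E (d + 1)) ρ, ENNReal.ofReal (lf p)
      ≤ ∫⁻ p in ⋃ i, f i '' s i, ENNReal.ofReal (lf p) := lintegral_mono_set hcov
    _ ≤ ∑' i, ∫⁻ p in f i '' s i, ENNReal.ofReal (lf p) := lintegral_iUnion_le _ _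
    _ ≤ _ := ENNReal.tsum_le_tsum hchart

/-- equality everywhere -/
theorem total_eq {d k : ℕ} {κ ρ κ' ρ' Lm eps : ℝ} (h : HJ (d + 1) k κ ρ κ' ρ' Lm eps) {M : Type}
    [MetricSpace M] (S : Fill d M) {e : Sph (d + 1) → M → ℝ} (he : CM.Dk ρ S.bd e) (hl : UL κ e)
    (hns : ∀ v w : Sph (d + 1), 2 * ρ / Real.pi * angle (v : E (d + 1)) (w : E (d + 1)) ≤
      dist (S.bd v) (S.bd w))
    (hT : (CompactSpace M ∧ S.Triangulated) ∨ S.NoRetraction)
    (hfin : ∫⁻ p in ball (0 : E (d + 1)) ρ, ENNReal.ofReal (lf p) ≠ ⊤)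
    (hvol : S.vol ≤ ∫⁻ p in ball (0 : E (d + 1)) ρ, ENNReal.ofReal (lf p)) (i : S.ι) :
    ∀ᵐ c ∂(volume : Measure (E (d + 1))), c ∈ (S.chart i).D →
      ∃ p : E (d + 1), ‖p‖ < ρ ∧ ∀ y, UE e ((S.chart i).map c) y = inner ℝ p y := by
  classical
  have := S.countable
  have hκ1 : κ ≤ 1 := h.k1'
  have hrr := h.toHP.rr'
  have hρ1 : ρ < 1 := lt_of_le_of_lt h.toHP.rr' h.r1
  set φ : S.ι → E (d + 1) → E (d + 1) → ℝ := fun i c => FE e ((S.chart i).map c) with hφ
  set s : S.ι → Set (E (d + 1)) := fun i =>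
    {c | c ∈ (S.chart i).D ∧ ∃ p : E (d + 1), ‖p‖ < ρ ∧ XX k p (φ i c) = 0} with hs
  set f : S.ι → E (d + 1) → E (d + 1) := fun i c =>
    if h : ∃ p : E (d + 1), ‖p‖ < ρ ∧ XX k p (φ i c) = 0 then h.choose else 0 with hf
  have hfs : ∀ i, ∀ c ∈ s i, ‖f i c‖ < ρ ∧ XX k (f i c) (φ i c) = 0 := by
    intro i c hc
    have h := hc.2
    rw [hf]
    simp only
    rw [dif_pos h]
    exact h.choose_spec
  have hcov : ball (0 : E (d + 1)) ρ ⊆ ⋃ i, f i '' s i := by
    intro p hp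
    rw [mem_ball_zero_iff] at hp
    obtain ⟨q, hq⟩ := cover h.toHP he hl hns hT hp
    rcases S.cover q with ⟨x, rfl⟩ | ⟨i, c, hc, rfl⟩
    · exfalso
      have e1 : FE e (S.bd x) = fun y => (inner ℝ (ρ • (x : E (d + 1))) y : ℝ) :=
        funext fun y => CM.FE_bd he x y
      have e3 : ‖ρ • (x : E (d + 1))‖ = ρ := by
        rw [norm_smul, sph_norm, mul_one, Real.norm_of_nonneg h.r0.le]
      rw [e1] at hq
      have hpos := XX_lin_pos k h.r0.le hρ1 hp.le (e3.le.trans hρ1.le) (by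
        intro h0
        rw [← h0, e3] at hp
        exact lt_irrefl _ hp)
      rw [hq, inner_zero_left] at hpos
      exact lt_irrefl _ hpos
    · have hcs : c ∈ s i := ⟨hc, p, hp, hq⟩
      obtain ⟨g1, g2⟩ := hfs i c hcs
      refine mem_iUnion.2 ⟨i, c, hcs, ?_⟩
      exact uniq h.toHP (g1.le.trans hrr) (hp.le.trans hrr) (FE_Ck he hl _) g2 hq
  have hchart : ∀ i, ∫⁻ p in f i '' s i, ENNReal.ofReal (lf p) ≤
      ∫⁻ c in (S.chart i).D, ENNReal.ofReal √((S.chart i).G c).det := by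
    intro i
    obtain ⟨q1, q2⟩ := FE_chart hκ1 he hl (S.chart i)
    exact chart_area h q1 (S.chart i).pos_G q2 (S.chart i).meas_D (S.chart i).D_sub rfl (hfs i)
  have hlow : ∫⁻ p in ball (0 : E (d + 1)) ρ, ENNReal.ofReal (lf p) ≤
      ∑' i, ∫⁻ p in f i '' s i, ENNReal.ofReal (lf p) :=
    (lintegral_mono_set hcov).trans (lintegral_iUnion_le _ _)
  have hVf : S.vol ≠ ⊤ := ne_top_of_le_ne_top hfin hvol
  have hVd : S.vol = ∑' i, ∫⁻ c in (S.chart i).D, ENNReal.ofReal √((S.chart i).G c).det := rfl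
  have hLf : ∑' i, ∫⁻ p in f i '' s i, ENNReal.ofReal (lf p) ≠ ⊤ :=
    ne_top_of_le_ne_top hVf (by rw [hVd]; exact ENNReal.tsum_le_tsum hchart)
  have heq : ∫⁻ c in (S.chart i).D, ENNReal.ofReal √((S.chart i).G c).det ≤
      ∫⁻ p in f i '' s i, ENNReal.ofReal (lf p) := by
    by_contra hcon
    push Not at hcon
    have h1 := ENNReal.tsum_lt_tsum hLf hchart hcon
    rw [← hVd] at h1
    exact absurd (hlow.trans_lt h1) (not_lt.2 hvol)
  have hif : ∫⁻ c in (S.chart i).D, ENNReal.ofReal √((S.chart i).G c).det ≠ ⊤ := by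
    refine ne_top_of_le_ne_top hVf ?_
    rw [hVd]
    exact ENNReal.le_tsum i
  obtain ⟨q1, q2⟩ := FE_chart hκ1 he hl (S.chart i)
  have hmain := chart_eq h q1 (S.chart i).pos_G (S.chart i).cont_G
    (B := fun c => BB e ((S.chart i).map c)) (fun c => BB_cont hl _) (fun c y => BB_nonneg _ _ y)
    (fun c y => BB_le _ _ y) (chart_B hκ1 he hl (S.chart i)) (S.chart i).meas_D (S.chart i).D_sub
    rfl (hfs i) hif heq
  filter_upwards [hmain] with c hc hcD
  obtain ⟨hcs, hcy⟩ := hc hcD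
  refine ⟨f i c, (hfs i c hcs).1, fun y => ?_⟩
  by_cases hy : y = 0
  · rw [hy, UE_zero, inner_zero_right]
  · obtain ⟨h1, h2⟩ := hcy y
    have h3 := BB_eq e ((S.chart i).map c) y hy h2
    rw [← h1]
    show _ = (UE e ((S.chart i).map c) y - UE e ((S.chart i).map c) (-y)) / 2
    rw [h3]
    ring

end Pool.Agent.Q183.CR
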