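import Pool.Agent.Q183.CN.L

/-!
# Great circles in the ball of the sphere
-/

set_option autoImplicit false

open Real Set InnerProductGeometry

namespace Pool.Agent.Q183.CR

open Pool.Agent.Q183.CN
open Pool.Agent.H241R3.FV (Sph)
open Pool.Agent.W716.FV (E)

theorem gc_inner {N : ℕ} {x u : E N} (hx : ‖x‖ = 1) (hu : ‖u‖ = 1) (hxu : inner ℝ x u = 0)
    (s t : ℝ) : inner ℝ (cos s • x + sin s • u) (cos t • x + sin t • u) = cos (s - t) := by
  have h1 : (inner ℝ u x : ℝ) = 0 := by rw [real_inner_comm]; exact hxu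
  have h2 : (inner ℝ x x : ℝ) = 1 := by rw [real_inner_self_eq_norm_sq, hx]; norm_num
  have h3 : (inner ℝ u u : ℝ) = 1 := by rw [real_inner_self_eq_norm_sq, hu]; norm_num
  simp only [inner_add_left, inner_add_right, real_inner_smul_left, real_inner_smul_right, h1, h2,
    h3, hxu]
  rw [cos_sub]
  ring

theorem gc_norm {N : ℕ} {x u : E N} (hx : ‖x‖ = 1) (hu : ‖u‖ = 1) (hxu : inner ℝ x u = 0)
    (t : ℝ) : ‖cos t • x + sin t • u‖ = 1 := by
  have h1 := gc_inner hx hu hxu t t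
  rw [real_inner_self_eq_norm_sq, sub_self, cos_zero] at h1
  have h2 := norm_nonneg (cos t • x + sin t • u)
  nlinarith

theorem gc_angle {N : ℕ} {x u : E N} (hx : ‖x‖ = 1) (hu : ‖u‖ = 1) (hxu : inner ℝ x u = 0)
    {s t : ℝ} (h0 : t ≤ s) (h1 : s - t ≤ π) :
    angle (cos t • x + sin t • u) (cos s • x + sin s • u) = s - t := by
  unfold angle
  rw [gc_norm hx hu hxu, gc_norm hx hu hxu, gc_inner hx hu hxu, mul_one, div_one,
    ← cos_neg, neg_sub, arccos_cos (by linarith) h1]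

theorem gc_angle0 {N : ℕ} {x u : E N} (hx : ‖x‖ = 1) (hu : ‖u‖ = 1) (hxu : inner ℝ x u = 0)
    {s : ℝ} (h0 : 0 ≤ s) (h1 : s ≤ π) : angle x (cos s • x + sin s • u) = s := by
  have h2 := gc_angle hx hu hxu (s := s) (t := 0) h0 (by linarith)
  rw [cos_zero, sin_zero, one_smul, zero_smul, add_zero, sub_zero] at h2
  exact h2

theorem inner_angle {N : ℕ} {x y : E N} (hx : ‖x‖ = 1) (hy : ‖y‖ = 1) :
    (inner ℝ x y : ℝ) = cos (angle x y) := by
  have h1 := cos_angle_mul_norm_mul_norm x y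
  rw [hx, hy, mul_one, mul_one] at h1
  exact h1.symm

theorem eq_of_angle {N : ℕ} {x y : E N} (hx : ‖x‖ = 1) (hy : ‖y‖ = 1) (h : angle x y = 0) :
    x = y := by
  have h1 := inner_angle hx hy
  rw [h, cos_zero] at h1
  have h2 : ‖x - y‖ ^ 2 = 0 := by
    rw [norm_sub_sq_real, hx, hy, h1]
    norm_num
  have h3 := pow_eq_zero_iff two_ne_zero |>.1 h2
  exact sub_eq_zero.1 (norm_eq_zero.1 h3)

/-- the great circle through two points, up to the height `a` -/
theorem extend {N : ℕ} {c x y : E N} {a : ℝ} (hx : ‖x‖ = 1) (hy : ‖y‖ = 1) (hxy : x ≠ y)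
    (ha : 0 ≤ a) (hxc : 0 < (inner ℝ x c : ℝ)) (hyc : a ≤ inner ℝ y c)
    (hyc0 : 0 < (inner ℝ y c : ℝ)) :
    ∃ (u : E N) (t : ℝ), ‖u‖ = 1 ∧ inner ℝ x u = 0 ∧
      y = cos (angle x y) • x + sin (angle x y) • u ∧ 0 < angle x y ∧ angle x y ≤ t ∧ t < π ∧
      inner ℝ (cos t • x + sin t • u) c = a := by
  set θ := angle x y with hθ
  have hc : (inner ℝ x y : ℝ) = cos θ := inner_angle hx hy
  have hθ0 : 0 ≤ θ := angle_nonneg _ _
  have hθ1 : θ ≤ π := angle_le_pi _ _
  have hθp : 0 < θ := by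
    rcases eq_or_lt_of_le hθ0 with h | h
    · exact absurd (eq_of_angle hx hy h.symm) hxy
    · exact h
  have hθq : θ < π := by
    rcases eq_or_lt_of_le hθ1 with h | h
    · exfalso
      rw [h, cos_pi] at hc
      have h2 : ‖x + y‖ ^ 2 = 0 := by
        rw [norm_add_sq_real, hx, hy, hc]
        norm_num
      have h3 := pow_eq_zero_iff two_ne_zero |>.1 h2
      have h4 : x + y = 0 := norm_eq_zero.1 h3
      have h5 : (inner ℝ (x + y) c : ℝ) = 0 := by rw [h4, inner_zero_left]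
      rw [inner_add_left] at h5
      linarith
    · exact h
  have hs : 0 < sin θ := sin_pos_of_pos_of_lt_pi hθp hθq
  set u : E N := (sin θ)⁻¹ • (y - cos θ • x) with hu
  have hxx : (inner ℝ x x : ℝ) = 1 := by rw [real_inner_self_eq_norm_sq, hx]; norm_num
  have hxu : (inner ℝ x u : ℝ) = 0 := by
    rw [hu, real_inner_smul_right, inner_sub_right, real_inner_smul_right, hxx, hc]
    ring
  have hun : ‖u‖ = 1 := by
    have h1 : ‖y - cos θ • x‖ ^ 2 = sin θ ^ 2 := by
      rw [norm_sub_sq_real, norm_smul, hx, hy, real_inner_smul_right, real_inner_comm, hc,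
        Real.norm_eq_abs, mul_one, sq_abs]
      have := sin_sq_add_cos_sq θ
      linarith
    have h2 : ‖y - cos θ • x‖ = sin θ := by
      have := norm_nonneg (y - cos θ • x)
      nlinarith
    rw [hu, norm_smul, h2, norm_inv, Real.norm_of_nonneg hs.le, inv_mul_cancel₀ hs.ne']
  have hy' : y = cos θ • x + sin θ • u := by
    rw [hu, smul_smul, mul_inv_cancel₀ hs.ne', one_smul]
    abel
  have hcont : Continuous fun t : ℝ => (inner ℝ (cos t • x + sin t • u) c : ℝ) := by fun_prop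
  have hπ : (inner ℝ (cos π • x + sin π • u) c : ℝ) = -inner ℝ x c := by
    rw [cos_pi, sin_pi, zero_smul, add_zero, neg_one_smul, inner_neg_left]
  have hiv : a ∈ Icc ((fun t : ℝ => (inner ℝ (cos t • x + sin t • u) c : ℝ)) π)
      ((fun t : ℝ => (inner ℝ (cos t • x + sin t • u) c : ℝ)) θ) := by
    constructor
    · show (inner ℝ (cos π • x + sin π • u) c : ℝ) ≤ a
      rw [hπ]
      linarith
    · show a ≤ (inner ℝ (cos θ • x + sin θ • u) c : ℝ)
      rw [← hy']
      exact hyc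
  obtain ⟨t, ⟨ht1, ht2⟩, ht3⟩ := intermediate_value_Icc' hθ1 hcont.continuousOn hiv
  refine ⟨u, t, hun, hxu, hy', hθp, ht1, ?_, ht3⟩
  rcases eq_or_lt_of_le ht2 with h | h
  · exfalso
    have h1 : (inner ℝ (cos t • x + sin t • u) c : ℝ) = a := ht3
    rw [h, hπ] at h1
    linarith
  · exact h

/-- equality in the triangle inequality -/
theorem on_gc {N : ℕ} {x u y : E N} (hx : ‖x‖ = 1) (hu : ‖u‖ = 1) (hxu : inner ℝ x u = 0)
    (hy : ‖y‖ = 1) {t : ℝ} (ht0 : 0 < t) (ht1 : t < π)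
    (h : angle x y + angle y (cos t • x + sin t • u) = t) :
    y = cos (angle x y) • x + sin (angle x y) • u := by
  set α := angle x y with hα
  have hc : (inner ℝ x y : ℝ) = cos α := inner_angle hx hy
  have hc2 : (inner ℝ (cos t • x + sin t • u) y : ℝ) = cos (t - α) := by
    rw [real_inner_comm, inner_angle hy (gc_norm hx hu hxu t)]
    congr 1
    linarith
  rw [inner_add_left, real_inner_smul_left, real_inner_smul_left, hc, cos_sub] at hc2
  have hs : 0 < sin t := sin_pos_of_pos_of_lt_pi ht0 ht1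
  have hs2 : (inner ℝ u y : ℝ) = sin α := by
    have : sin t * inner ℝ u y = sin t * sin α := by linarith
    exact mul_left_cancel₀ hs.ne' this
  have h1 : (inner ℝ (cos α • x + sin α • u) y : ℝ) = 1 := by
    rw [inner_add_left, real_inner_smul_left, real_inner_smul_left, hc, hs2]
    have := sin_sq_add_cos_sq α
    nlinarith
  have h2 : ‖(cos α • x + sin α • u) - y‖ ^ 2 = 0 := by
    rw [norm_sub_sq_real, gc_norm hx hu hxu, hy, h1]
    norm_num
  have h3 := pow_eq_zero_iff two_ne_zero |>.1 h2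
  exact (sub_eq_zero.1 (norm_eq_zero.1 h3)).symm

theorem sin_uniq {a b t : ℝ} (ha0 : 0 ≤ a) (hb0 : 0 ≤ b) (ha : a ≤ t) (hb : b ≤ t) (ht : t < π)
    (h : sin a = sin b) (h' : sin a < sin t) : a = b := by
  by_contra hne
  wlog hab : a < b generalizing a b
  · exact this hb0 ha0 hb ha h.symm (h ▸ h') (Ne.symm hne)
      (lt_of_le_of_ne (not_lt.1 hab) (Ne.symm hne))
  have h1 : sin b - sin a = 2 * sin ((b - a) / 2) * cos ((b + a) / 2) := sin_sub_sin b a
  have h2 : 0 < sin ((b - a) / 2) := sin_pos_of_pos_of_lt_pi (by linarith) (by linarith)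
  have h3 : cos ((b + a) / 2) = 0 := by
    have h4 : 2 * sin ((b - a) / 2) * cos ((b + a) / 2) = 0 := by linarith
    rcases mul_eq_zero.1 h4 with h5 | h5
    · linarith
    · exact h5
  have h4 : (b + a) / 2 = π / 2 := by
    refine injOn_cos ⟨by linarith, by linarith⟩ ⟨by linarith [pi_pos], by linarith [pi_pos]⟩ ?_
    rw [h3, cos_pi_div_two]
  have h5 : π - t ≤ a := by linarith
  have h6 : sin (π - t) ≤ sin a := by
    refine sin_le_sin_of_le_of_le_pi_div_two (by linarith [pi_pos]) (by linarith) h5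
  rw [sin_pi_sub] at h6
  linarith

section

variable {d : ℕ} {c : E (d + 2)} {R : ℝ} {J : E (d + 1) →ₗᵢ[ℝ] E (d + 2)}

/-- the point over `p` -/
noncomputable def pt (c : E (d + 2)) (J : E (d + 1) →ₗᵢ[ℝ] E (d + 2)) (p : E (d + 1)) :
    E (d + 2) := √(1 - ‖p‖ ^ 2) • c + J p

theorem J_onto (hc : ‖c‖ = 1) (hJ : ∀ v, inner ℝ (J v) c = 0) {y : E (d + 2)}
    (hy : inner ℝ y c = 0) : ∃ v, J v = y := by
  have hc0 : c ≠ 0 := by
    intro h
    rw [h, norm_zero] at hc
    exact zero_ne_one hc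
  have hle : LinearMap.range J.toLinearMap ≤ (Submodule.span ℝ {c})ᗮ := by
    rintro _ ⟨v, rfl⟩
    rw [Submodule.mem_orthogonal_singleton_iff_inner_left]
    exact hJ v
  have h1 : Module.finrank ℝ (LinearMap.range J.toLinearMap) = d + 1 := by
    rw [LinearMap.finrank_range_of_inj J.injective]
    simp
  have h2 : Module.finrank ℝ ((Submodule.span ℝ {c})ᗮ : Submodule ℝ (E (d + 2))) = d + 1 := by
    have : Fact (Module.finrank ℝ (E (d + 2)) = (d + 1) + 1) := ⟨by simp⟩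
    exact Submodule.finrank_orthogonal_span_singleton hc0
  have h3 := Submodule.eq_of_le_of_finrank_eq hle (h1.trans h2.symm)
  have h4 : y ∈ LinearMap.range J.toLinearMap := by
    rw [h3, Submodule.mem_orthogonal_singleton_iff_inner_left]
    exact hy
  obtain ⟨v, hv⟩ := h4
  exact ⟨v, hv⟩

theorem pt_norm (hc : ‖c‖ = 1) (hJ : ∀ v, inner ℝ (J v) c = 0) {p : E (d + 1)} (hp : ‖p‖ ≤ 1) :
    ‖pt c J p‖ = 1 := by
  have h1 : ‖pt c J p‖ ^ 2 = 1 := by
    unfold pt
    rw [norm_add_sq_real, norm_smul, hc, real_inner_smul_left, real_inner_comm, hJ, J.norm_map,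
      Real.norm_of_nonneg (Real.sqrt_nonneg _), mul_one, Real.sq_sqrt (by nlinarith [norm_nonneg p])]
    ring
  have := norm_nonneg (pt c J p)
  nlinarith

theorem pt_c (hc : ‖c‖ = 1) (hJ : ∀ v, inner ℝ (J v) c = 0) (p : E (d + 1)) :
    inner ℝ (pt c J p) c = √(1 - ‖p‖ ^ 2) := by
  have h1 : (inner ℝ c c : ℝ) = 1 := by rw [real_inner_self_eq_norm_sq, hc]; norm_num
  unfold pt
  rw [inner_add_left, real_inner_smul_left, hJ, h1]
  ring

theorem pt_J (hJ : ∀ v, inner ℝ (J v) c = 0) (p v : E (d + 1)) :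
    inner ℝ (pt c J p) (J v) = inner ℝ p v := by
  unfold pt
  rw [inner_add_left, real_inner_smul_left, real_inner_comm, hJ, J.inner_map_map]
  ring

theorem pt_bp (hc : ‖c‖ = 1) (hJ : ∀ v, inner ℝ (J v) c = 0) (p w : E (d + 1)) :
    inner ℝ (pt c J p) (bp R c J w) = √(1 - ‖p‖ ^ 2) * cos R + sin R * inner ℝ p w := by
  unfold bp
  rw [inner_add_right, real_inner_smul_right, real_inner_smul_right, pt_c hc hJ, pt_J hJ]
  ring

theorem J_bp (hJ : ∀ v, inner ℝ (J v) c = 0) (v w : E (d + 1)) :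
    inner ℝ (J v) (bp R c J w) = sin R * inner ℝ v w := by
  unfold bp
  rw [inner_add_right, real_inner_smul_right, real_inner_smul_right, hJ, J.inner_map_map]
  ring

/-- the points of height `cos R` -/
theorem bp_of_height (hc : ‖c‖ = 1) (hJ : ∀ v, inner ℝ (J v) c = 0) (hR : 0 < sin R)
    {y : E (d + 2)} (hy : ‖y‖ = 1) (hyc : inner ℝ y c = cos R) :
    ∃ w : Sph (d + 1), y = bp R c J w := by
  have h1 : (inner ℝ c c : ℝ) = 1 := by rw [real_inner_self_eq_norm_sq, hc]; norm_num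
  obtain ⟨v, hv⟩ := J_onto hc hJ (y := y - cos R • c) (by
    rw [inner_sub_left, real_inner_smul_left, h1, hyc]
    ring)
  have h2 : ‖v‖ = sin R := by
    have h3 : ‖v‖ ^ 2 = sin R ^ 2 := by
      rw [← J.norm_map, hv, norm_sub_sq_real, real_inner_smul_right, hyc, norm_smul, hc, hy,
        Real.norm_eq_abs, mul_one, sq_abs]
      have := sin_sq_add_cos_sq R
      linarith
    have := norm_nonneg v
    nlinarith
  refine ⟨⟨(sin R)⁻¹ • v, ?_⟩, ?_⟩
  · rw [mem_sphere_zero_iff_norm, norm_smul, h2, norm_inv, Real.norm_of_nonneg hR.le,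
      inv_mul_cancel₀ hR.ne']
  · show y = cos R • c + sin R • J ((sin R)⁻¹ • v)
    rw [map_smul, smul_smul, mul_inv_cancel₀ hR.ne', one_smul, hv]
    abel

/-- every point of the ball is of the form `pt p` -/
theorem pt_of_ball (hc : ‖c‖ = 1) (hJ : ∀ v, inner ℝ (J v) c = 0) (hR0 : 0 ≤ R) (hR1 : R ≤ π / 2)
    {x : E (d + 2)} (hx : ‖x‖ = 1) (hxc : angle x c ≤ R) :
    ∃ p : E (d + 1), ‖p‖ ≤ sin R ∧ x = pt c J p := by
  have h1 : (inner ℝ c c : ℝ) = 1 := by rw [real_inner_self_eq_norm_sq, hc]; norm_num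
  have h2 : cos R ≤ inner ℝ x c := by
    rw [inner_angle hx hc]
    exact cos_le_cos_of_nonneg_of_le_pi (angle_nonneg _ _) (by linarith [pi_pos]) hxc
  have h3 : 0 ≤ cos R := cos_nonneg_of_mem_Icc ⟨by linarith [pi_pos], hR1⟩
  obtain ⟨p, hp⟩ := J_onto hc hJ (y := x - (inner ℝ x c : ℝ) • c) (by
    rw [inner_sub_left, real_inner_smul_left, h1]
    ring)
  have h4 : ‖p‖ ^ 2 = 1 - (inner ℝ x c : ℝ) ^ 2 := by
    rw [← J.norm_map, hp, norm_sub_sq_real, real_inner_smul_right, norm_smul, hc, hx,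
      Real.norm_eq_abs, mul_one, sq_abs]
    ring
  refine ⟨p, ?_, ?_⟩
  · have h5 : 0 ≤ sin R := sin_nonneg_of_nonneg_of_le_pi hR0 (by linarith [pi_pos])
    have h6 := sin_sq_add_cos_sq R
    refine le_of_sq_le_sq ?_ h5
    nlinarith
  · unfold pt
    have h5 : 1 - ‖p‖ ^ 2 = (inner ℝ x c : ℝ) ^ 2 := by linarith
    rw [h5, Real.sqrt_sq (by linarith), hp]
    abel

end

end Pool.Agent.Q183.CR
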