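import Pool.Agent.Q183.CR.C
import Pool.Agent.Q183.CR.D

/-!
# The distances to the boundary points
-/

set_option autoImplicit false

open Real MeasureTheory Metric Set Filter Topology InnerProductGeometry

namespace Pool.Agent.Q183.CR

open Pool.Agent.Q183.CN Pool.Agent.Q183.HD
open Pool.Agent.H241R3.FV (Sph Fill)
open Pool.Agent.W716.FV (E)

variable {d : ℕ} {K : Type} [MetricSpace K] {c : E (d + 2)} {R : ℝ}
  {J : E (d + 1) →ₗᵢ[ℝ] E (d + 2)}

theorem pt_pos (hp : ∀ p : E (d + 1), ‖p‖ < sin R → 0 < 1 - ‖p‖ ^ 2) {p : E (d + 1)}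
    (hpR : ‖p‖ < sin R) : 0 < √(1 - ‖p‖ ^ 2) := Real.sqrt_pos.2 (hp p hpR)

/-- the lower bound of the distances -/
theorem low (hc : ‖c‖ = 1) (hJ : ∀ v, inner ℝ (J v) c = 0) (hR0 : 0 < R) (hR1 : R < π / 2)
    {bd : Sph (d + 1) → K} {q : K} {p : E (d + 1)} (hp : ‖p‖ < sin R)
    (hq : ∀ v : Sph (d + 1), ei (sin R) bd v q = arccos (inner ℝ p (v : E (d + 1))))
    (w : Sph (d + 1)) :
    ∃ (u : E (d + 2)) (t : ℝ) (v : Sph (d + 1)), ‖u‖ = 1 ∧ inner ℝ (pt c J p) u = 0 ∧
      bp R c J w = cos (angle (pt c J p) (bp R c J w)) • pt c J p +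
        sin (angle (pt c J p) (bp R c J w)) • u ∧
      0 < angle (pt c J p) (bp R c J w) ∧ angle (pt c J p) (bp R c J w) ≤ t ∧ t < π ∧
      J v = cos t • pt c J p + sin t • u ∧ ei (sin R) bd v q = t ∧
      angle (pt c J p) (bp R c J w) ≤ dist q (bd w) := by
  have h1 : 0 < sin R := sin_pos_of_pos_of_lt_pi hR0 (by linarith [pi_pos])
  have h2 : 0 < cos R := cos_pos_of_mem_Ioo ⟨by linarith, hR1⟩
  have h3 := sin_sq_add_cos_sq R
  have hp1 : ‖p‖ ≤ 1 := hp.le.trans (sin_le_one R)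
  have hn := norm_nonneg p
  have hp2 : cos R ^ 2 < 1 - ‖p‖ ^ 2 := by nlinarith
  have hh : cos R < √(1 - ‖p‖ ^ 2) := Real.lt_sqrt_of_sq_lt hp2
  have hx := pt_norm hc hJ hp1
  have hy := norm_bp (R := R) hc hJ (sph_norm w)
  have hxc := pt_c hc hJ p
  have hyc := inner_bp_c (R := R) hc hJ (w : E (d + 1))
  have hxy : pt c J p ≠ bp R c J w := by
    intro h
    rw [h, hyc] at hxc
    linarith
  obtain ⟨u, t, hu, hxu, hyu, hθ0, hθt, ht, hta⟩ := extend hx hy hxy le_rfl
    (by rw [hxc]; linarith) (by rw [hyc]; exact h2.le) (by rw [hyc]; exact h2)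
  obtain ⟨v, hv⟩ := J_onto hc hJ hta
  have hv1 : ‖v‖ = 1 := by rw [← J.norm_map, hv, gc_norm hx hu hxu]
  set θ := angle (pt c J p) (bp R c J w) with hθ
  have e1 : arccos (inner ℝ p v) = t := by
    rw [← pt_J hJ p v, hv]
    have h4 := gc_angle0 hx hu hxu (s := t) (hθ0.le.trans hθt) ht.le
    unfold angle at h4
    rw [hx, gc_norm hx hu hxu, mul_one, div_one] at h4
    exact h4
  have e2 : arccos (sin R * inner ℝ v (w : E (d + 1))) = t - θ := by
    have h4 := gc_angle hx hu hxu (s := t) (t := θ) hθt (by linarith)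
    rw [← hyu, ← hv, angle_comm] at h4
    unfold angle at h4
    rw [J.norm_map, hv1, hy, mul_one, div_one, J_bp hJ] at h4
    exact h4
  have e3 : ei (sin R) bd ⟨v, mem_sphere_zero_iff_norm.2 hv1⟩ q = t := by
    rw [hq]
    exact e1
  refine ⟨u, t, ⟨v, mem_sphere_zero_iff_norm.2 hv1⟩, hu, hxu, hyu, hθ0, hθt, ht, hv, e3, ?_⟩
  have h5 : ei (sin R) bd ⟨v, mem_sphere_zero_iff_norm.2 hv1⟩ q ≤
      arccos (sin R * inner ℝ v (w : E (d + 1))) + dist q (bd w) :=
    ciInf_le (ei_bdd (sin R) bd ⟨v, mem_sphere_zero_iff_norm.2 hv1⟩ q) w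
  rw [e3, e2] at h5
  linarith

/-- the distances -/
theorem dist_eq' (hc : ‖c‖ = 1) (hJ : ∀ v, inner ℝ (J v) c = 0) (hR0 : 0 < R) (hR1 : R < π / 2)
    {bd : Sph (d + 1) → K} (hbd : Continuous bd) {q : K} {p : E (d + 1)} (hp : ‖p‖ < sin R)
    (hq : ∀ v : Sph (d + 1), ei (sin R) bd v q = arccos (inner ℝ p (v : E (d + 1))))
    (w : Sph (d + 1)) : dist q (bd w) = angle (pt c J p) (bp R c J w) := by
  have h1 : 0 < sin R := sin_pos_of_pos_of_lt_pi hR0 (by linarith [pi_pos])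
  have h2 : 0 < cos R := cos_pos_of_mem_Ioo ⟨by linarith, hR1⟩
  have h3 := sin_sq_add_cos_sq R
  have hp1 : ‖p‖ ≤ 1 := hp.le.trans (sin_le_one R)
  have hn := norm_nonneg p
  have hp2 : cos R ^ 2 < 1 - ‖p‖ ^ 2 := by nlinarith
  have hh : cos R < √(1 - ‖p‖ ^ 2) := Real.lt_sqrt_of_sq_lt hp2
  have hx := pt_norm hc hJ hp1
  obtain ⟨u, t, v, hu, hxu, hyu, hθ0, hθt, ht, hv, het, hlow⟩ := low hc hJ hR0 hR1 hp hq w
  set θ := angle (pt c J p) (bp R c J w) with hθ
  have hne := Pool.Agent.H241R3.FV.TExt.sph_nonempty (Nat.succ_pos d)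
  have hcont : Continuous fun w : Sph (d + 1) =>
      arccos (sin R * inner ℝ (v : E (d + 1)) (w : E (d + 1))) + dist q (bd w) := by
    refine (continuous_arccos.comp ?_).add (continuous_const.dist hbd)
    exact continuous_const.mul (continuous_const.inner continuous_subtype_val)
  obtain ⟨w₁, -, hw₁⟩ := (isCompact_univ (X := Sph (d + 1))).exists_isMinOn univ_nonempty
    hcont.continuousOn
  have hmin : ei (sin R) bd v q =
      arccos (sin R * inner ℝ (v : E (d + 1)) (w₁ : E (d + 1))) + dist q (bd w₁) := by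
    apply le_antisymm
    · exact ciInf_le (ei_bdd (sin R) bd v q) w₁
    · exact le_ciInf fun w' => hw₁ (mem_univ w')
  rw [het] at hmin
  obtain ⟨-, -, -, -, -, -, -, -, -, -, -, hlow₁⟩ := low hc hJ hR0 hR1 hp hq w₁
  have hy₁ := norm_bp (R := R) hc hJ (sph_norm w₁)
  have hβ : arccos (sin R * inner ℝ (v : E (d + 1)) (w₁ : E (d + 1))) =
      angle (bp R c J w₁) (cos t • pt c J p + sin t • u) := by
    rw [← hv, angle_comm]
    unfold angle
    rw [J.norm_map, sph_norm, hy₁, mul_one, div_one, J_bp hJ]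
  rw [hβ] at hmin
  have ht0 : 0 < t := hθ0.trans_le hθt
  have htri : t ≤ angle (pt c J p) (bp R c J w₁) +
      angle (bp R c J w₁) (cos t • pt c J p + sin t • u) := by
    have h4 := angle_le_angle_add_angle (pt c J p) (bp R c J w₁) (cos t • pt c J p + sin t • u)
    rwa [gc_angle0 hx hu hxu ht0.le ht.le] at h4
  have hα : dist q (bd w₁) = angle (pt c J p) (bp R c J w₁) := le_antisymm (by linarith) hlow₁
  have hsum : angle (pt c J p) (bp R c J w₁) +
      angle (bp R c J w₁) (cos t • pt c J p + sin t • u) = t := le_antisymm (by linarith) htri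
  have hon := on_gc hx hu hxu hy₁ ht0 ht hsum
  set α := angle (pt c J p) (bp R c J w₁) with hαd
  have hα0 : 0 ≤ α := angle_nonneg _ _
  have hαt : α ≤ t := by
    have := angle_nonneg (bp R c J w₁) (cos t • pt c J p + sin t • u)
    linarith
  -- heights
  set b : ℝ := inner ℝ u c with hb
  have hht : ∀ s : ℝ, (inner ℝ (cos s • pt c J p + sin s • u) c : ℝ) =
      cos s * √(1 - ‖p‖ ^ 2) + sin s * b := by
    intro s
    rw [inner_add_left, real_inner_smul_left, real_inner_smul_left, pt_c hc hJ]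
  have g0 : cos t * √(1 - ‖p‖ ^ 2) + sin t * b = 0 := by
    rw [← hht, ← hv, hJ]
  have g1 : cos α * √(1 - ‖p‖ ^ 2) + sin α * b = cos R := by
    rw [← hht, ← hon, inner_bp_c hc hJ]
  have g2 : cos θ * √(1 - ‖p‖ ^ 2) + sin θ * b = cos R := by
    rw [← hht, ← hyu, inner_bp_c hc hJ]
  set h₀ := √(1 - ‖p‖ ^ 2) with hh₀
  have hh0 : 0 < h₀ := h2.trans hh
  have hst : 0 < sin t := sin_pos_of_pos_of_lt_pi ht0 ht
  have k1 : h₀ * sin (t - α) = cos R * sin t := by
    rw [sin_sub, ← g1]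
    linear_combination -sin α * g0
  have k2 : h₀ * sin (t - θ) = cos R * sin t := by
    rw [sin_sub, ← g2]
    linear_combination -sin θ * g0
  have k3 : sin (t - α) = sin (t - θ) := mul_left_cancel₀ hh0.ne' (k1.trans k2.symm)
  have k4 : sin (t - α) < sin t := by
    have h4 : cos R * sin t < h₀ * sin t := mul_lt_mul_of_pos_right hh hst
    rw [← k1] at h4
    exact lt_of_mul_lt_mul_left h4 hh0.le
  have k5 := sin_uniq (by linarith) (by linarith) (by linarith) (by linarith) ht k3 k4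
  have k6 : α = θ := by linarith
  have k7 : bp R c J w₁ = bp R c J w := by
    rw [hon, hyu, k6]
  have k8 : w₁ = w := by
    unfold bp at k7
    have h4 := add_left_cancel k7
    have h5 := smul_right_injective (E (d + 2)) h1.ne' h4
    exact Subtype.ext (J.injective h5)
  rw [← k8, hα, k6]

end Pool.Agent.Q183.CR
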