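import Pool.Agent.Q183.CR.C
import Pool.Agent.Q183.CM.L

/-!
# The equality case for small balls, all dimensions
-/

set_option autoImplicit false

open MeasureTheory Metric Set Filter Topology InnerProductGeometry

namespace Pool.Agent.Q183.CR

open Pool.Agent.Q183.CN
open Pool.Agent.H241R3.FV (Sph RChart gnorm Fill act mat det_mat)
open Pool.Agent.W716.FV (E gam gd dir)
open Pool.Agent.Q188.FC
open Pool.Agent.Q280.FC (pb_mono pb_const pb_norm pb_mul pb_add pb_sub pb_pow pb_inner pb_apply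
  pb_sum pb_intc cs cc_cont cc_pb inner_int int_inner_sq qp_cont qp_pb)
open Pool.Agent.Q299.FC.DT (dot_eq quad_act apply_mat act_eq)
open Pool.Agent.Q183.CF (UE FE UE_zero UE_ne abs_UE_le UE_hom UE_sq_le)

variable {n : ℕ}

/-- the numerator and its bound -/
theorem det_TB0 {κ ρ : ℝ} (h : CM.Par n κ ρ) {p : E n} (hp : ‖p‖ ≤ ρ)
    {φ : E n → ℝ} (hφ : Ck κ ρ φ) (h0 : HH p φ = 0) {B : E n → ℝ} (hBc : Continuous B)
    (hBl : ∀ y, B y ≤ ‖y‖ ^ 2 - φ y ^ 2)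
    {G : Matrix (Fin n) (Fin n) ℝ} (hG : G.PosDef) {D : E n → E n →L[ℝ] ℝ} (hD : Measurable D)
    (hDb : ∀ᵐ y ∂(volume : Measure (E n)), ∀ v : E n,
      (D y v) ^ 2 ≤ B y * ∑ i, ∑ j, v i * G i j * v j)
    {T : E n →L[ℝ] E n} (hT : ∀ v, T v = ∫ y, (D y v * W p y) • y) :
    Integrable (fun z => √(B (NN p z) * ‖z‖ ^ 2)) (gam n) ∧
    Integrable (fun z => √((‖NN p z‖ ^ 2 - φ (NN p z) ^ 2) * ‖z‖ ^ 2)) (gam n) ∧
    0 < 1 - sv (sh p φ) / n ∧
    ∫ z, √((‖NN p z‖ ^ 2 - φ (NN p z) ^ 2) * ‖z‖ ^ 2) ∂(gam n) ≤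
      n * √(1 - sv (sh p φ) / n) ∧
    |T.det| ≤ (lf p * kn n) ^ n * (lf p *
      (((∫ z, √(B (NN p z) * ‖z‖ ^ 2) ∂(gam n)) / n) ^ n * √G.det)) := by
  have hρ0 := h.r0.le
  have hρ := h.r1
  have hn := h.n0
  have hp1 : ‖p‖ < 1 := hp.trans_lt hρ
  obtain ⟨hg1, -, hNL, hdet, -, -, hpN, -⟩ := bst hp1
  have hl0 : 0 < lf p := by linarith
  have hbd := ck_bd hρ.le hφ
  have hc : Cc (sh p φ) := h.cc hp hφ
  have hm := (HH_zero hρ0 hρ hp hbd).1 h0
  have hn' : (0 : ℝ) < n := by exact_mod_cast hn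
  have hGn : ∀ v : E n, 0 ≤ ∑ i, ∑ j, v i * G i j * v j := fun v => by
    rw [← Pool.Agent.W753.FV.BC.gnorm_sq hG v]
    positivity
  have hDb' : ∀ᵐ y ∂(volume : Measure (E n)), ∀ v : E n,
      (D y v) ^ 2 ≤ (‖y‖ ^ 2 - φ y ^ 2) * ∑ i, ∑ j, v i * G i j * v j := by
    filter_upwards [hDb] with y hy v
    exact (hy v).trans (mul_le_mul_of_nonneg_right (hBl y) (hGn v))
  set s := sh p φ with hs'
  have hsc := cc_cont hc
  have hspb := cc_pb hc
  set g : E n → E n → E n := fun v z => (D (NN p z) v) • z with hg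
  have hgi : ∀ v, Integrable (g v) (gam n) :=
    fun v => (T_hat hp1 (D_int hρ0 hρ hp hbd hD hDb' v)).1
  have hTv : ∀ v, T v = (lf p * kn n) • NNL p (∫ z, g v z ∂(gam n)) := by
    intro v
    rw [hT, (T_hat hp1 (D_int hρ0 hρ hp hbd hD hDb' v)).2, hNL]
  set e : Fin n → E n := fun j => EuclideanSpace.single j (1 : ℝ) with he
  set M : Matrix (Fin n) (Fin n) ℝ := fun i j => (∫ z, g (e j) z ∂(gam n)) i with hM
  have hmT : mat T = (lf p * kn n) • (mat (NNL p) * M) := by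
    ext i j
    have h5 : mat T i j = (T (e j)) i := rfl
    rw [h5, hTv (e j), PiLp.smul_apply, apply_mat, Matrix.smul_apply, Matrix.mul_apply]
  have hdT : T.det = (lf p * kn n) ^ n * (lf p * M.det) := by
    rw [det_mat, hmT, Matrix.det_smul, Matrix.det_mul, ← det_mat, hdet, Fintype.card_fin]
  -- the constant
  have hσ := sv_le hρ hp hφ hc hm
  rw [← hs'] at hσ
  have hσ0 : 0 ≤ sv s := integral_nonneg fun z => sq_nonneg _
  have hσn : sv s < n := by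
    have : (n : ℝ) * ρ ^ 2 < n * 1 := by
      apply mul_lt_mul_of_pos_left _ hn'
      nlinarith [h.r0]
    linarith
  set c : ℝ := √(1 - sv s / n) with hcd
  have hcp : 0 < 1 - sv s / n := by
    rw [sub_pos, div_lt_one hn']
    exact hσn
  have hc0 : 0 < c := Real.sqrt_pos.2 hcp
  have hc2 : c ^ 2 = 1 - sv s / n := Real.sq_sqrt hcp.le
  have hnc : (n : ℝ) - sv s = n * c ^ 2 := by
    rw [hc2]
    field_simp
  have hTw : ∀ z, lf p * (inner ℝ p z : ℝ) = inner ℝ (lf p • p) z := fun z =>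
    (real_inner_smul_left _ _ _).symm
  -- the pointwise identity
  have hid : ∀ z, ‖NN p z‖ ^ 2 - φ (NN p z) ^ 2 =
      ‖z‖ ^ 2 - s z ^ 2 - 2 * (s z * inner ℝ (lf p • p) z) := by
    intro z
    rw [nn_sq hp1, ← hTw, hs']
    unfold sh
    ring
  have hnn : ∀ z, 0 ≤ ‖NN p z‖ ^ 2 - φ (NN p z) ^ 2 := by
    intro z
    have h5 : φ (NN p z) ^ 2 ≤ ‖NN p z‖ ^ 2 := by
      rw [← sq_abs]
      exact pow_le_pow_left₀ (abs_nonneg _) (hbd.2 _) 2
    linarith
  have i1 : Integrable (fun z : E n => ‖z‖ ^ 2) (gam n) := pb_intc (by fun_prop) (pb_pow pb_norm 2)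
  have i2 : Integrable (fun z => s z ^ 2) (gam n) := pb_intc (hsc.pow 2) (pb_pow hspb 2)
  have i3 : Integrable (fun z => s z * inner ℝ (lf p • p) z) (gam n) :=
    pb_intc (hsc.mul (cont_inner _)) (pb_mul hspb (pb_inner _))
  have i4 : Integrable (fun z => ‖z‖ ^ 2 - s z ^ 2 - 2 * (s z * inner ℝ (lf p • p) z)) (gam n) :=
    (i1.sub i2).sub (i3.const_mul 2)
  have hE : ∫ z, (‖z‖ ^ 2 - s z ^ 2 - 2 * (s z * inner ℝ (lf p • p) z)) ∂(gam n) = n - sv s := by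
    have i12 : Integrable (fun z => ‖z‖ ^ 2 - s z ^ 2) (gam n) := i1.sub i2
    rw [integral_sub i12 (i3.const_mul 2), integral_sub i1 i2, integral_const_mul,
      sT_zero hc hm, int_nsq]
    unfold Pool.Agent.Q188.FC.sv
    ring
  have hcN : Continuous fun z => NN p z := by
    have e : (fun z => NN p z) = fun z => NNL p z := by
      funext z
      rw [hNL]
    rw [e]
    exact (NNL p).continuous
  have iR : Integrable (fun z => 1 / (2 * c) *
      (‖z‖ ^ 2 - s z ^ 2 - 2 * (s z * inner ℝ (lf p • p) z)) + c / 2 * ‖z‖ ^ 2) (gam n) :=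
    (i4.const_mul _).add (i1.const_mul _)
  have hpt : ∀ z, √((‖NN p z‖ ^ 2 - φ (NN p z) ^ 2) * ‖z‖ ^ 2) ≤ 1 / (2 * c) *
      (‖z‖ ^ 2 - s z ^ 2 - 2 * (s z * inner ℝ (lf p • p) z)) + c / 2 * ‖z‖ ^ 2 := by
    intro z
    have hX0 := hnn z
    rw [hid] at hX0 ⊢
    set X := ‖z‖ ^ 2 - s z ^ 2 - 2 * (s z * inner ℝ (lf p • p) z) with hX
    have h10 : 0 ≤ 1 / (2 * c) * X + c / 2 * ‖z‖ ^ 2 := by positivity
    refine Real.sqrt_le_iff.2 ⟨h10, ?_⟩
    have h11 : (1 / (2 * c) * X + c / 2 * ‖z‖ ^ 2) ^ 2 - X * ‖z‖ ^ 2 =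
        (1 / (2 * c) * X - c / 2 * ‖z‖ ^ 2) ^ 2 := by
      field_simp
      ring
    nlinarith [sq_nonneg (1 / (2 * c) * X - c / 2 * ‖z‖ ^ 2)]
  have c1 : Continuous fun z => ‖NN p z‖ ^ 2 - φ (NN p z) ^ 2 :=
    (hcN.norm.pow 2).sub ((hbd.1.comp hcN).pow 2)
  have iN : Integrable (fun z => √((‖NN p z‖ ^ 2 - φ (NN p z) ^ 2) * ‖z‖ ^ 2)) (gam n) := by
    refine iR.mono' ?_ (ae_of_all _ fun z => ?_)
    · exact (Real.continuous_sqrt.comp (c1.mul (continuous_norm.pow 2))).aestronglyMeasurable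
    · rw [Real.norm_of_nonneg (Real.sqrt_nonneg _)]
      exact hpt z
  have iB : Integrable (fun z => √(B (NN p z) * ‖z‖ ^ 2)) (gam n) := by
    refine iN.mono' ?_ (ae_of_all _ fun z => ?_)
    · exact (Real.continuous_sqrt.comp
        ((hBc.comp hcN).mul (continuous_norm.pow 2))).aestronglyMeasurable
    · rw [Real.norm_of_nonneg (Real.sqrt_nonneg _)]
      exact Real.sqrt_le_sqrt (mul_le_mul_of_nonneg_right (hBl _) (sq_nonneg _))
  refine ⟨iB, iN, hcp, ?_, ?_⟩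
  · refine (integral_mono iN iR hpt).trans (le_of_eq ?_)
    rw [integral_add (i4.const_mul _) (i1.const_mul _), integral_const_mul, integral_const_mul,
      hE, int_nsq, hnc]
    field_simp
    ring
  set I := ∫ z, √(B (NN p z) * ‖z‖ ^ 2) ∂(gam n) with hI
  have hI0 : 0 ≤ I := integral_nonneg fun z => Real.sqrt_nonneg _
  have hMd : |M.det| ≤ (I / n) ^ n * √G.det := by
    refine Pool.Agent.H241R3.FV.TMat.taskMat n hn M G hG (I / n) (by positivity) fun A hA => ?_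
    have h6 : ∀ i j, M i j = ∫ z, (g (e j) z) i ∂(gam n) := by
      intro i j
      have := ContinuousLinearMap.integral_comp_comm
        (EuclideanSpace.proj i : EuclideanSpace ℝ (Fin n) →L[ℝ] ℝ) (hgi (e j))
      simpa [hM] using this.symm
    have h7 : ∀ i j, Integrable (fun z => (g (e j) z) i * A j i) (gam n) := by
      intro i j
      exact ((EuclideanSpace.proj i : EuclideanSpace ℝ (Fin n) →L[ℝ] ℝ).integrable_comp
        (hgi (e j))).mul_const _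
    have h7s : Integrable (fun z => ∑ i, ∑ j, (g (e j) z) i * A j i) (gam n) :=
      integrable_finsetSum _ fun i _ => integrable_finsetSum _ fun j _ => h7 i j
    have h8 : ∀ z, ∑ i, ∑ j, (g (e j) z) i * A j i = D (NN p z) (act A z) := by
      intro z
      rw [act_eq, map_sum, Finset.sum_comm]
      refine Finset.sum_congr rfl fun j _ => ?_
      rw [map_smul, smul_eq_mul, Finset.sum_mul]
      refine Finset.sum_congr rfl fun i _ => ?_
      have h9 : (g (e j) z) i = D (NN p z) (e j) * z i := by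
        simp [hg]
      rw [h9]
      simp only [he]
      ring
    have h5 : (M * A).trace = ∫ z, D (NN p z) (act A z) ∂(gam n) := by
      have e1 : (M * A).trace = ∑ i, ∑ j, ∫ z, (g (e j) z) i * A j i ∂(gam n) := by
        rw [Matrix.trace]
        refine Finset.sum_congr rfl fun i _ => ?_
        rw [Matrix.diag_apply, Matrix.mul_apply]
        refine Finset.sum_congr rfl fun j _ => ?_
        rw [h6, integral_mul_const]
      rw [e1]
      have e2 : ∀ i, ∑ j, ∫ z, (g (e j) z) i * A j i ∂(gam n) =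
          ∫ z, ∑ j, (g (e j) z) i * A j i ∂(gam n) :=
        fun i => (integral_finsetSum _ fun j _ => h7 i j).symm
      rw [Finset.sum_congr rfl fun i _ => e2 i,
        ← integral_finsetSum _ fun i _ => integrable_finsetSum _ fun j _ => h7 i j]
      exact integral_congr_ae (Filter.Eventually.of_forall h8)
    have h5i : Integrable (fun z => D (NN p z) (act A z)) (gam n) :=
      h7s.congr (Filter.Eventually.of_forall h8)
    have hval : (n : ℝ) * (I / n) = I := by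
      field_simp
    rw [h5, hval, hI]
    refine integral_mono_ae h5i iB ?_
    filter_upwards [ae_nn hp1 hDb] with z hz
    have hv := hz (act A z)
    rw [quad_act G A hA] at hv
    exact Real.le_sqrt_of_sq_le hv
  have hkn := kn_pos n
  rw [hdT, abs_mul, abs_mul, abs_of_pos hl0, abs_of_pos (pow_pos (mul_pos hl0 hkn) n)]
  gcongr

/-- the equality case -/
theorem jac_eq0 {κ ρ : ℝ} (h : CM.Par n κ ρ) {p : E n} (hp : ‖p‖ ≤ ρ)
    {φ : E n → ℝ} (hφ : Ck κ ρ φ) (h0 : HH p φ = 0) {B : E n → ℝ} (hBc : Continuous B)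
    (hB0 : ∀ y, 0 ≤ B y) (hBl : ∀ y, B y ≤ ‖y‖ ^ 2 - φ y ^ 2)
    {G : Matrix (Fin n) (Fin n) ℝ} (hG : G.PosDef) {D : E n → E n →L[ℝ] ℝ} (hD : Measurable D)
    (hDb : ∀ᵐ y ∂(volume : Measure (E n)), ∀ v : E n,
      (D y v) ^ 2 ≤ B y * ∑ i, ∑ j, v i * G i j * v j)
    {T : E n →L[ℝ] E n} (hT : ∀ v, T v = ∫ y, (D y v * W p y) • y)
    (heq : (lf p)⁻¹ * |(LL p φ).det| * √G.det ≤ |T.det|) :
    ∀ y, φ y = inner ℝ p y ∧ B y = ‖y‖ ^ 2 - φ y ^ 2 := by
  have hρ1 := h.r1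
  have hρ0 := h.r0.le
  have hp1 : ‖p‖ < 1 := hp.trans_lt hρ1
  obtain ⟨hg1, -, hNL, -, -, -, b7, b8, b9⟩ := bst hp1
  obtain ⟨t1, t2, t3⟩ := h.tau hp
  have hl0 : 0 < lf p := by linarith
  have hbd := ck_bd hρ1.le hφ
  have hc : Cc (sh p φ) := h.cc hp hφ
  have hm := (HH_zero hρ0 hρ1 hp hbd).1 h0
  have hL := det_L hρ0 hρ1 hp hbd hc
  obtain ⟨iB, iN, hcp, hN, hTd⟩ := det_TB0 h hp hφ h0 hBc hBl hG hD hDb hT
  set s := sh p φ with hs'
  set M := Mm s (lf p • p) with hM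
  have hσ := CM.sv_fine h hp hφ hm
  have hσ0 : 0 ≤ sv s := integral_nonneg fun z => sq_nonneg _
  have hhs := Mm_hs hc hm (lf p • p)
  have hw : ‖lf p • p‖ ^ 2 = (lf p * ‖p‖) ^ 2 := by
    rw [norm_smul, Real.norm_eq_abs, abs_of_pos hl0]
  rw [hw] at hhs
  set t := (lf p * ‖p‖) ^ 2 with ht
  have ht0 : 0 ≤ t := sq_nonneg _
  have hhs2 : 3 / 5 * hs M ≤ sv s / 2 := by
    have e1 : sv s * (36 * t) ≤ sv s * 5 := mul_le_mul_of_nonneg_left t1 hσ0
    linarith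
  have hhs4 : hs M ≤ 36 / 625 := by
    refine hhs.trans ?_
    have hrr := h.rr
    have e0 : (κ * lf p) ^ 2 = 2 * ρ ^ 2 * (1 + t) := by rw [mul_pow, h.kk, t2]
    have e1 : sv s * 3 * (2 * t) ≤ (2 * ρ ^ 2 * (1 + t) - t) * (2 * t) := by
      apply mul_le_mul_of_nonneg_right _ (by linarith)
      rw [← e0]
      linarith
    have e2 : ρ ^ 2 * ((1 + t) * (4 * t)) ≤ 5 / 41 * ((1 + t) * (4 * t)) := by
      apply mul_le_mul_of_nonneg_right _ (by positivity)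
      linarith
    nlinarith [sq_nonneg (31 * t - 5)]
  have hlow := Pool.Agent.Q188.FC.dl n M (Mm_symm s _) hhs4
  rw [Mm_trace hc hm, zero_add] at hlow
  have hx : Real.exp (-sv s / 2) ≤ (1 - M).det := by
    refine le_trans ?_ hlow
    apply Real.exp_le_exp.2
    linarith
  have hx0 : 0 < (1 - M).det := (Real.exp_pos _).trans_le hx
  rw [abs_of_pos hx0] at hL
  have hn' : (0 : ℝ) < n := by exact_mod_cast h.n0
  set IB := ∫ z, √(B (NN p z) * ‖z‖ ^ 2) ∂(gam n) with hIB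
  set I := ∫ z, √((‖NN p z‖ ^ 2 - φ (NN p z) ^ 2) * ‖z‖ ^ 2) ∂(gam n) with hI
  have hIB0 : 0 ≤ IB := integral_nonneg fun z => Real.sqrt_nonneg _
  have hpt : ∀ z, √(B (NN p z) * ‖z‖ ^ 2) ≤ √((‖NN p z‖ ^ 2 - φ (NN p z) ^ 2) * ‖z‖ ^ 2) :=
    fun z => Real.sqrt_le_sqrt (mul_le_mul_of_nonneg_right (hBl _) (sq_nonneg _))
  have hII : IB ≤ I := integral_mono iB iN hpt
  have hGd : 0 < √G.det := Real.sqrt_pos.2 hG.det_pos
  have hkl : 0 < (lf p * kn n) ^ n := pow_pos (mul_pos hl0 (kn_pos n)) n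
  have hlo : Real.exp (-sv s / 2) ≤ (IB / n) ^ n := by
    have h1 := heq.trans hTd
    rw [hL] at h1
    have h2 : (lf p)⁻¹ * ((lf p * kn n) ^ n * (lf p ^ 2 * (1 - M).det)) *
        √G.det = ((lf p * kn n) ^ n * lf p * √G.det) * (1 - M).det := by
      field_simp
    have h3 : (lf p * kn n) ^ n * (lf p * ((IB / n) ^ n * √G.det)) =
        ((lf p * kn n) ^ n * lf p * √G.det) * (IB / n) ^ n := by ring
    rw [h2, h3] at h1
    exact hx.trans (le_of_mul_le_mul_left h1 (by positivity))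
  set c : ℝ := √(1 - sv s / n) with hcd
  have hc0 : 0 < c := Real.sqrt_pos.2 hcp
  have hc2 : c ^ 2 = 1 - sv s / n := Real.sq_sqrt hcp.le
  have hIn : IB / n ≤ c := by
    rw [div_le_iff₀ hn', mul_comm]
    exact hII.trans hN
  have h5 : Real.exp (-(sv s / (2 * n))) ≤ IB / n := by
    have h6 : Real.exp (-(sv s / (2 * n))) ^ n ≤ (IB / n) ^ n := by
      rw [← Real.exp_nat_mul]
      have h7 : (n : ℝ) * -(sv s / (2 * n)) = -sv s / 2 := by
        field_simp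
      rw [h7]
      exact hlo
    exact le_of_pow_le_pow_left₀ h.n0.ne' (by positivity) h6
  have h6 : Real.exp (-(sv s / n)) ≤ -(sv s / n) + 1 := by
    have h7 := pow_le_pow_left₀ (Real.exp_pos _).le (h5.trans hIn) 2
    rw [hc2, ← Real.exp_nat_mul] at h7
    have h8 : ((2 : ℕ) : ℝ) * -(sv s / (2 * n)) = -(sv s / n) := by
      push_cast
      field_simp
    rw [h8] at h7
    linarith
  have h7 : sv s / n = 0 := by
    by_contra hne
    have := Real.add_one_lt_exp (neg_ne_zero.2 hne)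
    linarith
  have h8 : sv s = 0 := by
    rcases div_eq_zero_iff.1 h7 with h9 | h9
    · exact h9
    · exact absurd h9 hn'.ne'
  have hIBl : I ≤ IB := by
    rw [h8, zero_div, neg_zero, Real.exp_zero, le_div_iff₀ hn'] at h5
    have h9 : c = 1 := by rw [hcd, h7, sub_zero, Real.sqrt_one]
    rw [h9] at hN
    linarith
  -- the first conclusion
  have hsc := cc_cont hc
  have hspb := cc_pb hc
  have i2 : Integrable (fun z => s z ^ 2) (gam n) := pb_intc (hsc.pow 2) (pb_pow hspb 2)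
  have hs0 : ∀ z : E n, s z ^ 2 = 0 :=
    zero_of_int (hsc.pow 2) (fun z => sq_nonneg _) i2 (le_of_eq h8)
  have hφp : ∀ y, φ y = inner ℝ p y := by
    intro y
    have h10 := pow_eq_zero_iff two_ne_zero |>.1 (hs0 (NI p y))
    have h11 : φ (NN p (NI p y)) - lf p * inner ℝ p (NI p y) = 0 := h10
    rw [← b7, b9] at h11
    linarith
  have hcN : Continuous fun z => NN p z := by
    have e : (fun z => NN p z) = fun z => NNL p z := by
      funext z
      rw [hNL]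
    rw [e]
    exact (NNL p).continuous
  have hg2 : ∀ z, √((‖NN p z‖ ^ 2 - φ (NN p z) ^ 2) * ‖z‖ ^ 2) -
      √(B (NN p z) * ‖z‖ ^ 2) = 0 := by
    refine zero_of_int ?_ (fun z => sub_nonneg.2 (hpt z)) (iN.sub iB) ?_
    · have c1 : Continuous fun z => ‖NN p z‖ ^ 2 - φ (NN p z) ^ 2 :=
        (hcN.norm.pow 2).sub ((hbd.1.comp hcN).pow 2)
      exact (Real.continuous_sqrt.comp (c1.mul (continuous_norm.pow 2))).sub
        (Real.continuous_sqrt.comp ((hBc.comp hcN).mul (continuous_norm.pow 2)))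
    · rw [integral_sub iN iB]
      linarith
  intro y
  refine ⟨hφp y, ?_⟩
  set z := NI p y with hz
  have hzy : NN p z = y := b9 y
  by_cases hz0 : z = 0
  · have hy0 : y = 0 := by
      rw [← hzy, hz0, ← hNL, map_zero]
    have h1 := hB0 y
    have h2 := hBl y
    have h3 : ‖y‖ ^ 2 = 0 := by rw [hy0]; simp
    have h4 := sq_nonneg (φ y)
    linarith
  · have h1 := hg2 z
    rw [hzy] at h1
    have h2 : 0 ≤ ‖y‖ ^ 2 - φ y ^ 2 := (hB0 y).trans (hBl y)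
    rw [sub_eq_zero, Real.sqrt_inj (mul_nonneg h2 (sq_nonneg _))
      (mul_nonneg (hB0 _) (sq_nonneg _))] at h1
    exact (mul_right_cancel₀ (by
      have := norm_pos_iff.2 hz0
      positivity) h1).symm

theorem center_diff0 {κ ρ : ℝ} (h : CM.Par n κ ρ) {U : Set (E n)} {φ : E n → E n → ℝ}
    (hφ : CM.LF κ ρ U φ) {s : Set (E n)} {f : E n → E n} (hsU : s ⊆ U)
    (hf : ∀ c ∈ s, ‖f c‖ < ρ ∧ HH (f c) (φ c) = 0) {c₀ : E n} (hc₀ : c₀ ∈ s)
    {G : Matrix (Fin n) (Fin n) ℝ} (hG : G.PosDef) {B : E n → ℝ} (hBc : Continuous B)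
    (hBn : ∀ y, 0 ≤ B y) (hBl : ∀ y, B y ≤ ‖y‖ ^ 2 - φ c₀ y ^ 2) (hD : GoodB φ B c₀ G) :
    ∃ f' : E n →L[ℝ] E n, HasFDerivWithinAt f f' s c₀ ∧
      |f'.det| ≤ (lf (f c₀))⁻¹ * √G.det ∧ ((lf (f c₀))⁻¹ * √G.det ≤ |f'.det| →
        ∀ y, φ c₀ y = inner ℝ (f c₀) y ∧ B y = ‖y‖ ^ 2 - φ c₀ y ^ 2) := by
  obtain ⟨D, hDm, hDd⟩ := hD
  have hGn : ∀ v : E n, 0 ≤ ∑ i, ∑ j, v i * G i j * v j := fun v => by
    rw [← Pool.Agent.W753.FV.BC.gnorm_sq hG v]
    positivity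
  obtain ⟨r₀, K₀, hr₀, hK₀, hball, hlip⟩ := hφ.2 c₀ (hsU hc₀)
  obtain ⟨hp₀, hz₀⟩ := hf c₀ hc₀
  set p₀ := f c₀ with hp₀d
  have hbd : ∀ c, Bd (φ c) := fun c => ck_bd h.r1.le (hφ.1 c)
  obtain ⟨T, hT, hTv⟩ := HH_chart h.r0.le h.r1 hp₀.le hbd (c₀ := c₀) hr₀
    (fun c hc y => hlip c hc c₀ (mem_ball_self hr₀) y) hDm (hDd.mono fun y hy => hy.1)
  set L := LL p₀ (φ c₀) with hLd
  obtain ⟨hL0, hdet⟩ := CM.jac h hp₀.le (hφ.1 c₀) hz₀ hG hDm (hDd.mono fun y hy v =>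
    (hy.2 v).trans (mul_le_mul_of_nonneg_right (hBl y) (hGn v))) hTv
  set Le : E n ≃L[ℝ] E n := L.toContinuousLinearEquivOfDetNeZero hL0 with hLe
  have hLe1 : ∀ v, Le v = L v := fun v => rfl
  have hLe2 : ∀ v, L (Le.symm v) = v := fun v => by rw [← hLe1, Le.apply_symm_apply]
  have h6 : L.comp (-((Le.symm : E n →L[ℝ] E n).comp T)) = -T := by
    ext v
    simp only [ContinuousLinearMap.comp_apply, _root_.neg_apply, map_neg]
    have h7 : L ((Le.symm : E n →L[ℝ] E n) (T v)) = T v := hLe2 _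
    rw [h7]
  refine ⟨-((Le.symm : E n →L[ℝ] E n).comp T), ?_, ?_, ?_⟩
  · obtain ⟨K, hK, hLZ⟩ := CM.zero_lip h
    obtain ⟨Ks, hKs, hst⟩ := strict (n := n) h.r0.le h.r1
    obtain ⟨Cs, hCs0, hCs⟩ : ∃ Cs : ℝ, 0 < Cs ∧ ∀ v, ‖Le.symm v‖ ≤ Cs * ‖v‖ := by
      refine ⟨‖(Le.symm : E n →L[ℝ] E n)‖ + 1, by positivity, fun v => ?_⟩
      have := (Le.symm : E n →L[ℝ] E n).le_opNorm v
      have h6 : ‖(Le.symm : E n →L[ℝ] E n)‖ * ‖v‖ ≤ (‖(Le.symm : E n →L[ℝ] E n)‖ + 1) * ‖v‖ := by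
        gcongr
        linarith
      exact this.trans h6
    rw [hasFDerivWithinAt_iff_isLittleO, Asymptotics.isLittleO_iff]
    intro ε hε
    set B : ℝ := K₀ + K * K₀ with hB
    have hB0 : 0 ≤ B := by positivity
    set ε₂ : ℝ := ε / (2 * Cs) with hε₂
    have hε₂0 : 0 < ε₂ := by positivity
    rw [hasFDerivAt_iff_isLittleO, Asymptotics.isLittleO_iff] at hT
    have hT' := hT hε₂0
    set τ : ℝ := min r₀ (ε / (2 * Cs * (Ks * B * (K * K₀) + 1))) with hτ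
    have hτ0 : 0 < τ := by
      rw [hτ]
      refine lt_min hr₀ ?_
      positivity
    filter_upwards [self_mem_nhdsWithin, mem_nhdsWithin_of_mem_nhds (ball_mem_nhds c₀ hτ0),
      mem_nhdsWithin_of_mem_nhds hT'] with c hcs hcb hcT
    obtain ⟨hp, hz⟩ := hf c hcs
    set p := f c with hpd
    rw [mem_ball, dist_eq_norm] at hcb
    have hcr : c ∈ ball c₀ r₀ := by
      rw [mem_ball, dist_eq_norm]
      exact hcb.trans_le (min_le_left _ _)
    have hcl : ∀ y, |φ c y - φ c₀ y| ≤ K₀ * ‖c - c₀‖ * ‖y‖ :=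
      fun y => hlip c hcr c₀ (mem_ball_self hr₀) y
    have hpp : ‖p - p₀‖ ≤ K * (K₀ * ‖c - c₀‖) :=
      hLZ p p₀ (φ c) (φ c₀) (K₀ * ‖c - c₀‖) hp hp₀ (hφ.1 c) (hφ.1 c₀) (by positivity) hcl hz hz₀
    have hB1 : K₀ * ‖c - c₀‖ ≤ B * ‖c - c₀‖ := by
      rw [hB]
      have : 0 ≤ K * K₀ * ‖c - c₀‖ := by positivity
      linarith
    have hB2 : ‖p - p₀‖ ≤ B * ‖c - c₀‖ := by
      rw [hB]
      have : 0 ≤ K₀ * ‖c - c₀‖ := by positivity
      linarith
    have hst' := hst p₀ p p₀ (φ c₀) (φ c) (B * ‖c - c₀‖) hp₀.le hp.le hp₀.le (hbd c₀) (hbd c)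
      (by positivity) (fun y => (hcl y).trans (mul_le_mul_of_nonneg_right hB1 (norm_nonneg y)))
      hB2 (by rw [sub_self, norm_zero]; positivity)
    rw [hz, zero_sub] at hst'
    -- the identity
    have hid : p - p₀ - (-((Le.symm : E n →L[ℝ] E n).comp T)) (c - c₀) =
        Le.symm ((L (p - p₀) + HH p₀ (φ c)) - (HH p₀ (φ c) - HH p₀ (φ c₀) - T (c - c₀))) := by
      apply Le.injective
      rw [Le.apply_symm_apply, hLe1, map_sub]
      simp only [_root_.neg_apply, ContinuousLinearMap.comp_apply, map_neg]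
      have h7 : L ((Le.symm : E n →L[ℝ] E n) (T (c - c₀))) = T (c - c₀) := hLe2 _
      rw [h7, hz₀]
      abel
    rw [hid]
    refine (hCs _).trans ?_
    have h8 : ‖(L (p - p₀) + HH p₀ (φ c)) - (HH p₀ (φ c) - HH p₀ (φ c₀) - T (c - c₀))‖ ≤
        Ks * (B * ‖c - c₀‖) * ‖p - p₀‖ + ε₂ * ‖c - c₀‖ := by
      refine (norm_sub_le _ _).trans (add_le_add ?_ hcT)
      have h9 : ‖L (p - p₀) + HH p₀ (φ c)‖ = ‖-HH p₀ (φ c) - L (p - p₀)‖ := by
        rw [← norm_neg]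
        congr 1
        abel
      rw [h9]
      exact hst'
    have h10 : ‖c - c₀‖ * (2 * Cs * (Ks * B * (K * K₀) + 1)) ≤ ε := by
      have h11 := (hcb.trans_le (min_le_right _ _)).le
      rwa [le_div_iff₀ (by positivity)] at h11
    have h12 : Ks * (B * ‖c - c₀‖) * ‖p - p₀‖ ≤ Ks * B * (K * K₀) * ‖c - c₀‖ * ‖c - c₀‖ := by
      calc Ks * (B * ‖c - c₀‖) * ‖p - p₀‖ ≤ Ks * (B * ‖c - c₀‖) * (K * (K₀ * ‖c - c₀‖)) := by
            gcongr
        _ = _ := by ring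
    have h13 : Cs * (Ks * B * (K * K₀) * ‖c - c₀‖) ≤ ε / 2 := by
      have h14 : 0 ≤ ‖c - c₀‖ * Cs := by positivity
      nlinarith
    calc Cs * ‖(L (p - p₀) + HH p₀ (φ c)) - (HH p₀ (φ c) - HH p₀ (φ c₀) - T (c - c₀))‖
        ≤ Cs * (Ks * B * (K * K₀) * ‖c - c₀‖ * ‖c - c₀‖ + ε₂ * ‖c - c₀‖) := by
          gcongr
          exact h8.trans (by linarith)
      _ = (Cs * (Ks * B * (K * K₀) * ‖c - c₀‖) + Cs * ε₂) * ‖c - c₀‖ := by ring
      _ ≤ (ε / 2 + Cs * ε₂) * ‖c - c₀‖ := by gcongr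
      _ = ε * ‖c - c₀‖ := by
          rw [hε₂]
          field_simp
          ring
  · rw [Pool.Agent.Q188.FC.Bet.CF.det_neg_comp _ T L hL0 h6, div_le_iff₀ (abs_pos.2 hL0)]
    calc |T.det| ≤ (lf p₀)⁻¹ * |L.det| * √G.det := hdet
      _ = _ := by ring
  · intro heq
    rw [Pool.Agent.Q188.FC.Bet.CF.det_neg_comp _ T L hL0 h6, le_div_iff₀ (abs_pos.2 hL0)] at heq
    exact jac_eq0 h hp₀.le (hφ.1 c₀) hz₀ hBc hBn hBl hG hDm (hDd.mono fun y hy => hy.2) hTv
      (by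
        refine le_trans (le_of_eq ?_) heq
        ring)

/-- the estimate in one chart, equality case -/
theorem chart_eq0 {n : ℕ} {κ ρ : ℝ}
    (h : CM.Par n κ ρ) {U : Set (E n)} {φ : E n → E n → ℝ}
    (hφ : CM.LF κ ρ U φ) {G : E n → Matrix (Fin n) (Fin n) ℝ} (hG : ∀ c ∈ U, (G c).PosDef)
    (hGc : ContinuousOn G U) {B : E n → E n → ℝ} (hBc : ∀ c, Continuous (B c))
    (hBn : ∀ c y, 0 ≤ B c y) (hBl : ∀ c y, B c y ≤ ‖y‖ ^ 2 - φ c y ^ 2)
    (hae : ∀ᵐ c ∂(volume : Measure (E n)), c ∈ U → GoodB φ (B c) c (G c))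
    {D : Set (E n)} (hD : MeasurableSet D) (hDU : D ⊆ U) {s : Set (E n)} {f : E n → E n}
    (hs : s = {c | c ∈ D ∧ ∃ p : E n, ‖p‖ < ρ ∧ HH p (φ c) = 0})
    (hf : ∀ c ∈ s, ‖f c‖ < ρ ∧ HH (f c) (φ c) = 0)
    (hfin : ∫⁻ c in D, ENNReal.ofReal √(G c).det ≠ ⊤)
    (heq : ∫⁻ c in D, ENNReal.ofReal √(G c).det ≤ ∫⁻ p in f '' s, ENNReal.ofReal (lf p)) :
    ∀ᵐ c ∂(volume : Measure (E n)), c ∈ D →
      c ∈ s ∧ ∀ y, φ c y = inner ℝ (f c) y ∧ B c y = ‖y‖ ^ 2 - φ c y ^ 2 := by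
  have hsm : MeasurableSet s := by
    rw [hs]
    exact CM.meas_s h hφ hD hDU
  have hsD : s ⊆ D := by
    rw [hs]
    exact fun c hc => hc.1
  have hsU : s ⊆ U := hsD.trans hDU
  set N : Set (E n) := toMeasurable volume {c | ¬ (c ∈ U → GoodB φ (B c) c (G c))} with hN
  have hN0 : volume N = 0 := by
    rw [hN, measure_toMeasurable]
    exact hae
  have hNm : MeasurableSet N := measurableSet_toMeasurable _ _
  have hgood : ∀ c ∈ s \ N, GoodB φ (B c) c (G c) := by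
    intro c hc
    by_contra hcon
    apply hc.2
    apply subset_toMeasurable
    intro hh
    exact hcon (hh (hsU hc.1))
  have hder : ∀ c : E n, ∃ f' : E n →L[ℝ] E n, c ∈ s \ N → HasFDerivWithinAt f f' (s \ N) c ∧
      |f'.det| ≤ (lf (f c))⁻¹ * √(G c).det ∧ ((lf (f c))⁻¹ * √(G c).det ≤ |f'.det| →
        ∀ y, φ c y = inner ℝ (f c) y ∧ B c y = ‖y‖ ^ 2 - φ c y ^ 2) := by
    intro c
    by_cases hc : c ∈ s \ N
    · obtain ⟨f', h6, h7, h8⟩ := center_diff0 h hφ hsU hf hc.1 (hG c (hsU hc.1)) (hBc c) (hBn c)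
        (hBl c) (hgood c hc)
      exact ⟨f', fun _ => ⟨h6.mono sdiff_subset, h7, h8⟩⟩
    · exact ⟨0, fun h => absurd h hc⟩
  choose f' hf' using hder
  have hA := wa n (s \ N) f f' (hsm.diff hNm) (fun x hx => (hf' x hx).1)
    (fun p => ENNReal.ofReal (lf p)) (Pool.Agent.Q188.FC.Bet.CA.lf_measurable n)
  have hnull : volume (f '' (s ∩ N)) = 0 := by
    refine nl n s f ?_ (s ∩ N) inter_subset_left (measure_mono_null inter_subset_right hN0)
    exact CM.center_lip h hφ hsU hf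
  have hsub : f '' s ⊆ f '' (s \ N) ∪ f '' (s ∩ N) := by
    rintro _ ⟨x, hx, rfl⟩
    by_cases hxN : x ∈ N
    · exact Or.inr ⟨x, ⟨hx, hxN⟩, rfl⟩
    · exact Or.inl ⟨x, ⟨hx, hxN⟩, rfl⟩
  have hlf : ∀ x ∈ s \ N, 0 < lf (f x) := by
    intro x hx
    have h1 := (bst (lt_trans (hf x hx.1).1 h.r1)).1
    linarith
  have hpt : ∀ x ∈ s \ N, ENNReal.ofReal |(f' x).det| * ENNReal.ofReal (lf (f x)) ≤
      ENNReal.ofReal √(G x).det := by
    intro x hx
    have hlf := hlf x hx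
    rw [← ENNReal.ofReal_mul (abs_nonneg _)]
    refine ENNReal.ofReal_le_ofReal ?_
    calc |(f' x).det| * lf (f x) ≤ (lf (f x))⁻¹ * √(G x).det * lf (f x) :=
          mul_le_mul_of_nonneg_right (hf' x hx).2.1 hlf.le
      _ = √(G x).det := by
          field_simp
  have hmN : MeasurableSet (s \ N) := hsm.diff hNm
  have c1 : ∫⁻ p in f '' s, ENNReal.ofReal (lf p) ≤
      ∫⁻ x in s \ N, ENNReal.ofReal |(f' x).det| * ENNReal.ofReal (lf (f x)) := by
    calc ∫⁻ p in f '' s, ENNReal.ofReal (lf p)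
        ≤ ∫⁻ p in f '' (s \ N) ∪ f '' (s ∩ N), ENNReal.ofReal (lf p) := lintegral_mono_set hsub
      _ ≤ (∫⁻ p in f '' (s \ N), ENNReal.ofReal (lf p)) +
          ∫⁻ p in f '' (s ∩ N), ENNReal.ofReal (lf p) := lintegral_union_le _ _ _
      _ = ∫⁻ p in f '' (s \ N), ENNReal.ofReal (lf p) := by
          rw [setLIntegral_measure_zero _ _ hnull, add_zero]
      _ ≤ _ := hA
  have c2 : ∫⁻ x in s \ N, ENNReal.ofReal |(f' x).det| * ENNReal.ofReal (lf (f x)) ≤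
      ∫⁻ x in s \ N, ENNReal.ofReal √(G x).det := setLIntegral_mono' hmN hpt
  have c3 : ∫⁻ x in s \ N, ENNReal.ofReal √(G x).det ≤
      ∫⁻ x in D, ENNReal.ofReal √(G x).det := lintegral_mono_set (sdiff_subset.trans hsD)
  have hgc := cont_sq hGc
  -- equality in the Jacobian
  have e1 : ∀ᵐ x ∂(volume : Measure (E n)), x ∈ s \ N →
      ENNReal.ofReal |(f' x).det| * ENNReal.ofReal (lf (f x)) = ENNReal.ofReal √(G x).det := by
    have h1 := ae_eq_of_ae_le_of_lintegral_le (μ := volume.restrict (s \ N))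
      (f := fun x => ENNReal.ofReal |(f' x).det| * ENNReal.ofReal (lf (f x)))
      (g := fun x => ENNReal.ofReal √(G x).det)
      ((ae_restrict_iff' hmN).2 (ae_of_all _ hpt)) (ne_top_of_le_ne_top hfin (c2.trans c3))
      ((hgc.mono (sdiff_subset.trans hsU)).aemeasurable hmN) (c3.trans (heq.trans c1))
    exact (ae_restrict_iff' hmN).1 h1
  -- the complement
  have e2 : ∫⁻ x in D \ (s \ N), ENNReal.ofReal √(G x).det = 0 := by
    have h1 := lintegral_inter_add_sdiff (μ := volume) (fun x => ENNReal.ofReal √(G x).det) D hmN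
    have h2 : D ∩ (s \ N) = s \ N := inter_eq_right.2 (sdiff_subset.trans hsD)
    rw [h2] at h1
    have h3 : ∫⁻ x in D, ENNReal.ofReal √(G x).det ≤ ∫⁻ x in s \ N, ENNReal.ofReal √(G x).det :=
      heq.trans (c1.trans c2)
    have h4 : ∫⁻ x in s \ N, ENNReal.ofReal √(G x).det ≠ ⊤ := ne_top_of_le_ne_top hfin c3
    rw [← h1] at h3
    have h5 : ∫⁻ x in D \ (s \ N), ENNReal.ofReal √(G x).det ≤ 0 := by
      by_contra hc
      push Not at hc
      exact absurd h3 (not_le.2 (ENNReal.lt_add_right h4 hc.ne'))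
    exact le_antisymm h5 zero_le
  have hmD : MeasurableSet (D \ (s \ N)) := hD.diff hmN
  have e3 : ∀ᵐ x ∂(volume : Measure (E n)), x ∈ D \ (s \ N) → ENNReal.ofReal √(G x).det = 0 := by
    have h1 := (lintegral_eq_zero_iff' (μ := volume.restrict (D \ (s \ N)))
      ((hgc.mono (sdiff_subset.trans hDU)).aemeasurable hmD)).1 e2
    exact (ae_restrict_iff' hmD).1 h1
  filter_upwards [e1, e3] with c hc1 hc3 hcD
  have hcs : c ∈ s \ N := by
    by_contra hcon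
    have h1 := hc3 ⟨hcD, hcon⟩
    rw [ENNReal.ofReal_eq_zero] at h1
    have h2 : 0 < √(G c).det := Real.sqrt_pos.2 (hG c (hDU hcD)).det_pos
    linarith
  refine ⟨hcs.1, (hf' c hcs).2.2 ?_⟩
  have h1 := hc1 hcs
  have hl := hlf c hcs
  rw [← ENNReal.ofReal_mul (abs_nonneg _), ENNReal.ofReal_eq_ofReal_iff (by positivity)
    (Real.sqrt_nonneg _)] at h1
  rw [← h1]
  refine le_of_eq ?_
  field_simp

/-- the volume of the part over a closed set which contains all centres -/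
theorem vol_sub0 {d : ℕ} {κ ρ : ℝ} (h : CM.Par (d + 1) κ ρ) {M : Type}
    [MetricSpace M] (S : Fill d M) {e : Sph (d + 1) → M → ℝ} (he : CM.Dk ρ S.bd e)
    {A : Set M} (hA : IsClosed A)
    (hcv : ∀ p : E (d + 1), ‖p‖ < ρ → ∃ q ∈ A, HH p (FE e q) = 0) :
    ∫⁻ p in ball (0 : E (d + 1)) ρ, ENNReal.ofReal (lf p) ≤
      ∑' i, ∫⁻ c in (S.chart i).D ∩ {c | (S.chart i).map c ∈ A},
        ENNReal.ofReal √((S.chart i).G c).det := by
  classical
  have := S.countable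
  have hκ1 : κ ≤ 1 := by
    have h1 := h.kk
    have h2 := h.rr
    refine le_of_sq_le_sq ?_ (by norm_num)
    linarith
  have hl : HD.UL κ e := fun q G G' => CM.UE_lip h.r0.le h.k0 h.kk he q G G'
  have huniq : ∀ ψ : E (d + 1) → ℝ, Ck κ ρ ψ → ∀ p p' : E (d + 1), ‖p‖ < ρ → ‖p'‖ < ρ →
      HH p ψ = 0 → HH p' ψ = 0 → p = p' := by
    intro ψ hψ p p' hp hp' h0 h0'
    obtain ⟨K, hK, hz⟩ := CM.zero_lip h
    have h9 := hz p p' ψ ψ 0 hp hp' hψ hψ le_rfl (fun y => by simp) h0 h0'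
    rw [mul_zero] at h9
    have h10 : ‖p - p'‖ = 0 := le_antisymm h9 (norm_nonneg _)
    exact sub_eq_zero.1 (norm_eq_zero.1 h10)
  set φ : S.ι → E (d + 1) → E (d + 1) → ℝ := fun i c => FE e ((S.chart i).map c) with hφ
  set DD : S.ι → Set (E (d + 1)) := fun i => (S.chart i).D ∩ {c | (S.chart i).map c ∈ A} with hDD
  have hDm : ∀ i, MeasurableSet (DD i) := by
    intro i
    have hc : ContinuousOn (S.chart i).map (S.chart i).U := by
      intro p hp
      refine ContinuousAt.continuousWithinAt ?_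
      obtain ⟨r, hr, hrU, hh⟩ := Pool.Agent.H241R3.FV.TLoc.taskLoc (d + 1) M (S.chart i) p hp 1
        one_pos
      obtain ⟨K, hK, hKg⟩ := Pool.Agent.H241R3.FV.TDiff.gnorm_le ((S.chart i).G p)
      rw [Metric.continuousAt_iff]
      intro ε hε
      refine ⟨min r (ε / (K + 1)), lt_min hr (by positivity), fun y hy => ?_⟩
      have h1 := hh y (mem_ball.2 (hy.trans_le (min_le_left _ _))) p (mem_ball_self hr)
      have h2 := hKg (y - p)
      have h3 := hy.trans_le (min_le_right _ _)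
      rw [dist_eq_norm, lt_div_iff₀ (by positivity)] at h3
      calc dist ((S.chart i).map y) ((S.chart i).map p) ≤ (K + 1) * ‖y - p‖ := by linarith
        _ < ε := by linarith
    have h1 : DD i = (S.chart i).D \ ((S.chart i).U ∩ (S.chart i).map ⁻¹' Aᶜ) := by
      ext c
      constructor
      · rintro ⟨h2, h3⟩
        exact ⟨h2, fun hh => hh.2 h3⟩
      · rintro ⟨h2, h3⟩
        refine ⟨h2, ?_⟩
        by_contra hcon
        exact h3 ⟨(S.chart i).D_sub h2, hcon⟩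
    rw [h1]
    exact (S.chart i).meas_D.diff
      (hc.isOpen_inter_preimage (S.chart i).isOpen_U hA.isOpen_compl).measurableSet
  set s : S.ι → Set (E (d + 1)) := fun i =>
    {c | c ∈ DD i ∧ ∃ p : E (d + 1), ‖p‖ < ρ ∧ HH p (φ i c) = 0} with hs
  set f : S.ι → E (d + 1) → E (d + 1) := fun i c =>
    if h : ∃ p : E (d + 1), ‖p‖ < ρ ∧ HH p (φ i c) = 0 then h.choose else 0 with hf
  have hfs : ∀ i, ∀ c ∈ s i, ‖f i c‖ < ρ ∧ HH (f i c) (φ i c) = 0 := by
    intro i c hc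
    have h := hc.2
    rw [hf]
    simp only
    rw [dif_pos h]
    exact h.choose_spec
  have hcov : ball (0 : E (d + 1)) ρ ⊆ ⋃ i, f i '' s i := by
    intro p hp
    rw [mem_ball_zero_iff] at hp
    obtain ⟨q, hqA, hq⟩ := hcv p hp
    rcases S.cover q with ⟨x, rfl⟩ | ⟨i, c, hc, rfl⟩
    · exfalso
      have e1 : FE e (S.bd x) = fun y => (inner ℝ (ρ • (x : E (d + 1))) y : ℝ) :=
        funext fun y => CM.FE_bd he x y
      have e3 : ‖ρ • (x : E (d + 1))‖ = ρ := by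
        rw [norm_smul, sph_norm, mul_one, Real.norm_of_nonneg h.r0.le]
      rw [e1] at hq
      refine HH_lin_ne h.r0.le h.r1 hp.le (e3.le.trans h.r1.le) ?_ hq
      intro h0
      rw [← h0, e3] at hp
      exact lt_irrefl _ hp
    · have hcs : c ∈ s i := ⟨⟨hc, hqA⟩, p, hp, hq⟩
      obtain ⟨g1, g2⟩ := hfs i c hcs
      refine mem_iUnion.2 ⟨i, c, hcs, ?_⟩
      exact huniq _ (HD.FE_Ck he hl _) _ _ g1 hp g2 hq
  have hchart : ∀ i, ∫⁻ p in f i '' s i, ENNReal.ofReal (lf p) ≤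
      ∫⁻ c in DD i, ENNReal.ofReal √((S.chart i).G c).det := by
    intro i
    obtain ⟨q1, q2⟩ := HD.FE_chart hκ1 he hl (S.chart i)
    exact CM.chart_area h q1 (S.chart i).pos_G q2 (hDm i)
      (inter_subset_left.trans (S.chart i).D_sub) rfl (hfs i)
  calc ∫⁻ p in ball (0 : E (d + 1)) ρ, ENNReal.ofReal (lf p)
      ≤ ∫⁻ p in ⋃ i, f i '' s i, ENNReal.ofReal (lf p) := lintegral_mono_set hcov
    _ ≤ ∑' i, ∫⁻ p in f i '' s i, ENNReal.ofReal (lf p) := lintegral_iUnion_le _ _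
    _ ≤ _ := ENNReal.tsum_le_tsum hchart

/-- equality everywhere -/
theorem total_eq0 {d : ℕ} {κ ρ : ℝ} (h : CM.Par (d + 1) κ ρ) {M : Type}
    [MetricSpace M] (S : Fill d M) {e : Sph (d + 1) → M → ℝ} (he : CM.Dk ρ S.bd e)
    (hns : ∀ v w : Sph (d + 1), 2 * ρ / Real.pi * angle (v : E (d + 1)) (w : E (d + 1)) ≤
      dist (S.bd v) (S.bd w))
    (hT : (CompactSpace M ∧ S.Triangulated) ∨ S.NoRetraction)
    (hfin : ∫⁻ p in ball (0 : E (d + 1)) ρ, ENNReal.ofReal (lf p) ≠ ⊤)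
    (hvol : S.vol ≤ ∫⁻ p in ball (0 : E (d + 1)) ρ, ENNReal.ofReal (lf p)) (i : S.ι) :
    ∀ᵐ c ∂(volume : Measure (E (d + 1))), c ∈ (S.chart i).D →
      ∃ p : E (d + 1), ‖p‖ < ρ ∧ ∀ y, UE e ((S.chart i).map c) y = inner ℝ p y := by
  classical
  have := S.countable
  have hκ1 : κ ≤ 1 := by
    have h1 := h.kk
    have h2 := h.rr
    refine le_of_sq_le_sq ?_ (by norm_num)
    linarith
  have hl : HD.UL κ e := fun q G G' => CM.UE_lip h.r0.le h.k0 h.kk he q G G'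
  have huniq : ∀ ψ : E (d + 1) → ℝ, Ck κ ρ ψ → ∀ p p' : E (d + 1), ‖p‖ < ρ → ‖p'‖ < ρ →
      HH p ψ = 0 → HH p' ψ = 0 → p = p' := by
    intro ψ hψ p p' hp hp' h0 h0'
    obtain ⟨K, hK, hz⟩ := CM.zero_lip h
    have h9 := hz p p' ψ ψ 0 hp hp' hψ hψ le_rfl (fun y => by simp) h0 h0'
    rw [mul_zero] at h9
    have h10 : ‖p - p'‖ = 0 := le_antisymm h9 (norm_nonneg _)
    exact sub_eq_zero.1 (norm_eq_zero.1 h10)
  set φ : S.ι → E (d + 1) → E (d + 1) → ℝ := fun i c => FE e ((S.chart i).map c) with hφ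
  set s : S.ι → Set (E (d + 1)) := fun i =>
    {c | c ∈ (S.chart i).D ∧ ∃ p : E (d + 1), ‖p‖ < ρ ∧ HH p (φ i c) = 0} with hs
  set f : S.ι → E (d + 1) → E (d + 1) := fun i c =>
    if h : ∃ p : E (d + 1), ‖p‖ < ρ ∧ HH p (φ i c) = 0 then h.choose else 0 with hf
  have hfs : ∀ i, ∀ c ∈ s i, ‖f i c‖ < ρ ∧ HH (f i c) (φ i c) = 0 := by
    intro i c hc
    have h := hc.2
    rw [hf]
    simp only
    rw [dif_pos h]
    exact h.choose_spec
  have hcov : ball (0 : E (d + 1)) ρ ⊆ ⋃ i, f i '' s i := by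
    intro p hp
    rw [mem_ball_zero_iff] at hp
    obtain ⟨q, hq⟩ := CM.cover h he hns hT hp
    rcases S.cover q with ⟨x, rfl⟩ | ⟨i, c, hc, rfl⟩
    · exfalso
      have e1 : FE e (S.bd x) = fun y => (inner ℝ (ρ • (x : E (d + 1))) y : ℝ) :=
        funext fun y => CM.FE_bd he x y
      have e3 : ‖ρ • (x : E (d + 1))‖ = ρ := by
        rw [norm_smul, sph_norm, mul_one, Real.norm_of_nonneg h.r0.le]
      rw [e1] at hq
      refine HH_lin_ne h.r0.le h.r1 hp.le (e3.le.trans h.r1.le) ?_ hq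
      intro h0
      rw [← h0, e3] at hp
      exact lt_irrefl _ hp
    · have hcs : c ∈ s i := ⟨hc, p, hp, hq⟩
      obtain ⟨g1, g2⟩ := hfs i c hcs
      refine mem_iUnion.2 ⟨i, c, hcs, ?_⟩
      exact huniq _ (HD.FE_Ck he hl _) _ _ g1 hp g2 hq
  have hchart : ∀ i, ∫⁻ p in f i '' s i, ENNReal.ofReal (lf p) ≤
      ∫⁻ c in (S.chart i).D, ENNReal.ofReal √((S.chart i).G c).det := by
    intro i
    obtain ⟨q1, q2⟩ := HD.FE_chart hκ1 he hl (S.chart i)
    exact CM.chart_area h q1 (S.chart i).pos_G q2 (S.chart i).meas_D (S.chart i).D_sub rfl (hfs i)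
  have hlow : ∫⁻ p in ball (0 : E (d + 1)) ρ, ENNReal.ofReal (lf p) ≤
      ∑' i, ∫⁻ p in f i '' s i, ENNReal.ofReal (lf p) :=
    (lintegral_mono_set hcov).trans (lintegral_iUnion_le _ _)
  have hVf : S.vol ≠ ⊤ := ne_top_of_le_ne_top hfin hvol
  have hVd : S.vol = ∑' i, ∫⁻ c in (S.chart i).D, ENNReal.ofReal √((S.chart i).G c).det := rfl
  have hLf : ∑' i, ∫⁻ p in f i '' s i, ENNReal.ofReal (lf p) ≠ ⊤ :=
    ne_top_of_le_ne_top hVf (by rw [hVd]; exact ENNReal.tsum_le_tsum hchart)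
  have heq : ∫⁻ c in (S.chart i).D, ENNReal.ofReal √((S.chart i).G c).det ≤
      ∫⁻ p in f i '' s i, ENNReal.ofReal (lf p) := by
    by_contra hcon
    push Not at hcon
    have h1 := ENNReal.tsum_lt_tsum hLf hchart hcon
    rw [← hVd] at h1
    exact absurd (hlow.trans_lt h1) (not_lt.2 hvol)
  have hif : ∫⁻ c in (S.chart i).D, ENNReal.ofReal √((S.chart i).G c).det ≠ ⊤ := by
    refine ne_top_of_le_ne_top hVf ?_
    rw [hVd]
    exact ENNReal.le_tsum i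
  obtain ⟨q1, q2⟩ := HD.FE_chart hκ1 he hl (S.chart i)
  have hmain := chart_eq0 h q1 (S.chart i).pos_G (S.chart i).cont_G
    (B := fun c => BB e ((S.chart i).map c)) (fun c => BB_cont hl _) (fun c y => BB_nonneg _ _ y)
    (fun c y => BB_le _ _ y) (chart_B hκ1 he hl (S.chart i)) (S.chart i).meas_D (S.chart i).D_sub
    rfl (hfs i) hif heq
  filter_upwards [hmain] with c hc hcD
  obtain ⟨hcs, hcy⟩ := hc hcD
  refine ⟨f i c, (hfs i c hcs).1, fun y => ?_⟩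
  by_cases hy : y = 0
  · rw [hy, UE_zero, inner_zero_right]
  · obtain ⟨h1, h2⟩ := hcy y
    have h3 := BB_eq e ((S.chart i).map c) y hy h2
    rw [← h1]
    show _ = (UE e ((S.chart i).map c) y - UE e ((S.chart i).map c) (-y)) / 2
    rw [h3]
    ring

end Pool.Agent.Q183.CR
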