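import Pool.Agent.Q183.CR.F
import Pool.Agent.Q183.CR.H

/-!
# Rigidity of the spherical caps
-/

set_option autoImplicit false

open Real MeasureTheory Metric Set Filter Topology InnerProductGeometry

namespace Pool.Agent.Q183.CR

open Pool.Agent.Q183.CN Pool.Agent.Q183.HD
open Pool.Agent.H241R3.FV (Sph Fill sig om)
open Pool.Agent.W716.FV (E)
open Pool.Agent.Q188.FC (lf)
open Pool.Agent.Q183.CF (UE FE UE_zero UE_ne)

theorem ang_arc {N : ℕ} {x y : E N} (hx : ‖x‖ = 1) (hy : ‖y‖ = 1) :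
    angle x y = arccos (inner ℝ x y) := by
  unfold angle
  rw [hx, hy, mul_one, div_one]

section

variable {d : ℕ} {K : Type} [MetricSpace K] {c : E (d + 2)} {R : ℝ}
  {J : E (d + 1) →ₗᵢ[ℝ] E (d + 2)}

/-- the point `q` of the filling corresponds to the point over `p` -/
def Cor (R : ℝ) (c : E (d + 2)) (J : E (d + 1) →ₗᵢ[ℝ] E (d + 2)) (bd : Sph (d + 1) → K) (q : K)
    (p : E (d + 1)) : Prop :=
  ‖p‖ ≤ sin R ∧ (∀ v : Sph (d + 1), ek (sin R) bd v q = arccos (inner ℝ p (v : E (d + 1)))) ∧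
    ∀ w : Sph (d + 1), dist q (bd w) = arccos (inner ℝ (pt c J p) (bp R c J w))

theorem pt_cont : Continuous (pt c J) := by
  unfold pt
  exact ((Real.continuous_sqrt.comp (continuous_const.sub (continuous_norm.pow 2))).smul
    continuous_const).add J.continuous

theorem cor_closed {bd : Sph (d + 1) → K}
    (hek : ∀ x q q', |ek (sin R) bd x q - ek (sin R) bd x q'| ≤ dist q q') :
    IsClosed {q | ∃ p, Cor R c J bd q p} := by
  rw [← isSeqClosed_iff_isClosed]
  intro x q hx hxq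
  choose p hp using hx
  obtain ⟨p₀, hp₀, θ, hθ, hlim⟩ := (isCompact_closedBall (0 : E (d + 1)) (sin R)).tendsto_subseq
    (x := p) (fun j => mem_closedBall_zero_iff.2 (hp j).1)
  have hxθ : Tendsto (fun j => x (θ j)) atTop (𝓝 q) := hxq.comp hθ.tendsto_atTop
  refine ⟨p₀, mem_closedBall_zero_iff.1 hp₀, fun v => ?_, fun w => ?_⟩
  · have hc : Continuous fun q => ek (sin R) bd v q := by
      have : LipschitzWith 1 fun q => ek (sin R) bd v q := by
        refine LipschitzWith.of_dist_le_mul fun q q' => ?_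
        rw [Real.dist_eq, NNReal.coe_one, one_mul]
        exact hek v q q'
      exact this.continuous
    have t1 : Tendsto (fun j => ek (sin R) bd v (x (θ j))) atTop (𝓝 (ek (sin R) bd v q)) :=
      (hc.tendsto q).comp hxθ
    have t2 : Tendsto (fun j => arccos (inner ℝ (p (θ j)) (v : E (d + 1)))) atTop
        (𝓝 (arccos (inner ℝ p₀ (v : E (d + 1))))) := by
      have hc2 : Continuous fun p : E (d + 1) => arccos (inner ℝ p (v : E (d + 1))) :=
        continuous_arccos.comp (continuous_id.inner continuous_const)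
      exact (hc2.tendsto p₀).comp hlim
    refine tendsto_nhds_unique t1 (t2.congr fun j => ?_)
    exact ((hp (θ j)).2.1 v).symm
  · have t1 : Tendsto (fun j => dist (x (θ j)) (bd w)) atTop (𝓝 (dist q (bd w))) :=
      hxθ.dist tendsto_const_nhds
    have t2 : Tendsto (fun j => arccos (inner ℝ (pt c J (p (θ j))) (bp R c J w))) atTop
        (𝓝 (arccos (inner ℝ (pt c J p₀) (bp R c J w)))) := by
      have hc2 : Continuous fun p : E (d + 1) => arccos (inner ℝ (pt c J p) (bp R c J w)) :=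
        continuous_arccos.comp (pt_cont.inner continuous_const)
      exact (hc2.tendsto p₀).comp hlim
    refine tendsto_nhds_unique t1 (t2.congr fun j => ?_)
    exact ((hp (θ j)).2.2 w).symm

theorem dir_self {N : ℕ} (v : Sph N) (h : (v : E N) ≠ 0) :
    Pool.Agent.W716.FV.dir (v : E N) h = v := by
  have h1 := CM.norm_dir (v : E N) h
  rw [sph_norm, one_smul] at h1
  exact Subtype.ext h1

theorem cor_of_UE (hc : ‖c‖ = 1) (hJ : ∀ v, inner ℝ (J v) c = 0) (hR0 : 0 < R) (hR1 : R < π / 2)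
    {bd : Sph (d + 1) → K} (hbd : Continuous bd) {q : K} {p : E (d + 1)} (hp : ‖p‖ < sin R)
    (hU : ∀ y, UE (ek (sin R) bd) q y = inner ℝ p y) : Cor R c J bd q p := by
  have h1 : 0 < sin R := sin_pos_of_pos_of_lt_pi hR0 (by linarith [pi_pos])
  have hp1 : ‖p‖ ≤ 1 := hp.le.trans (sin_le_one R)
  have hcos : ∀ v : Sph (d + 1), cos (ek (sin R) bd v q) = inner ℝ p (v : E (d + 1)) := by
    intro v
    have hv : (v : E (d + 1)) ≠ 0 := by
      intro h
      have := sph_norm v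
      rw [h, norm_zero] at this
      exact zero_ne_one this
    have h2 := hU (v : E (d + 1))
    rw [UE_ne _ _ _ hv, dir_self v hv, sph_norm, one_mul] at h2
    exact h2
  have hr : ∀ v : Sph (d + 1), arccos (sin R) ≤ ek (sin R) bd v q ∧
      ek (sin R) bd v q ≤ π - arccos (sin R) := fun v => ek_range h1.le bd v q
  have h0 := arccos_nonneg (sin R)
  have hek : ∀ v : Sph (d + 1), ek (sin R) bd v q = arccos (inner ℝ p (v : E (d + 1))) := by
    intro v
    rw [← hcos, arccos_cos (h0.trans (hr v).1) (by linarith [(hr v).2])]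
  have hei : ∀ v : Sph (d + 1), ei (sin R) bd v q = arccos (inner ℝ p (v : E (d + 1))) := by
    intro v
    have h2 : |(inner ℝ p (v : E (d + 1)) : ℝ)| < sin R := by
      have h3 := abs_real_inner_le_norm p (v : E (d + 1))
      rw [sph_norm, mul_one] at h3
      linarith
    have h3 := abs_lt.1 h2
    have h4 : arccos (sin R) < arccos (inner ℝ p (v : E (d + 1))) := by
      refine strictAntiOn_arccos ⟨?_, ?_⟩ ⟨?_, ?_⟩ h3.2 <;> linarith [sin_le_one R]
    have h5 : arccos (inner ℝ p (v : E (d + 1))) < π - arccos (sin R) := by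
      rw [← arccos_neg]
      refine strictAntiOn_arccos ⟨?_, ?_⟩ ⟨?_, ?_⟩ h3.1 <;> linarith [sin_le_one R]
    have h6 := hek v
    rw [← h6] at h4 h5 ⊢
    unfold ek at h4 h5 ⊢
    rcases le_total (arccos (sin R)) (min (π - arccos (sin R)) (ei (sin R) bd v q)) with h7 | h7
    · rw [max_eq_right h7] at h4 h5 ⊢
      rcases le_total (π - arccos (sin R)) (ei (sin R) bd v q) with h8 | h8
      · rw [min_eq_left h8] at h5
        exact absurd h5 (lt_irrefl _)
      · rw [min_eq_right h8]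
    · rw [max_eq_left h7] at h4
      exact absurd h4 (lt_irrefl _)
  refine ⟨hp.le, hek, fun w => ?_⟩
  rw [dist_eq' hc hJ hR0 hR1 hbd hp hei w]
  exact ang_arc (pt_norm hc hJ hp1) (norm_bp hc hJ (sph_norm w))

theorem FE_cor {bd : Sph (d + 1) → K} {q : K} {p : E (d + 1)} (h : Cor R c J bd q p) :
    FE (ek (sin R) bd) q = fun y => (inner ℝ p y : ℝ) := by
  have hp1 : ‖p‖ ≤ 1 := h.1.trans (sin_le_one R)
  have hU : ∀ y, UE (ek (sin R) bd) q y = inner ℝ p y := by
    intro y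
    by_cases hy : y = 0
    · rw [hy, UE_zero, inner_zero_right]
    · rw [UE_ne _ _ _ hy, h.2.1, cos_arccos, ← real_inner_smul_right, CM.norm_dir]
      · have h3 := abs_real_inner_le_norm p (Pool.Agent.W716.FV.dir y hy : E (d + 1))
        rw [sph_norm, mul_one] at h3
        linarith [(abs_le.1 h3).1]
      · have h3 := abs_real_inner_le_norm p (Pool.Agent.W716.FV.dir y hy : E (d + 1))
        rw [sph_norm, mul_one] at h3
        linarith [(abs_le.1 h3).2]
  funext y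
  unfold FE
  rw [hU, hU, inner_neg_right]
  ring

theorem XX_self (k : ℕ) (p : E (d + 1)) : XX k p (fun y => (inner ℝ p y : ℝ)) = 0 := by
  unfold XX
  simp

theorem meas_DD (S : Fill d K) {A : Set K} (hA : IsClosed A) (i : S.ι) :
    MeasurableSet ((S.chart i).D ∩ {c | (S.chart i).map c ∈ A}) := by
  have hc : ContinuousOn (S.chart i).map (S.chart i).U := by
    intro p hp
    refine ContinuousAt.continuousWithinAt ?_
    obtain ⟨r, hr, hrU, hh⟩ := Pool.Agent.H241R3.FV.TLoc.taskLoc (d + 1) K (S.chart i) p hp 1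
      one_pos
    obtain ⟨K', hK, hKg⟩ := Pool.Agent.H241R3.FV.TDiff.gnorm_le ((S.chart i).G p)
    rw [Metric.continuousAt_iff]
    intro ε hε
    refine ⟨min r (ε / (K' + 1)), lt_min hr (by positivity), fun y hy => ?_⟩
    have h1 := hh y (mem_ball.2 (hy.trans_le (min_le_left _ _))) p (mem_ball_self hr)
    have h2 := hKg (y - p)
    have h3 := hy.trans_le (min_le_right _ _)
    rw [dist_eq_norm, lt_div_iff₀ (by positivity)] at h3
    calc dist ((S.chart i).map y) ((S.chart i).map p) ≤ (K' + 1) * ‖y - p‖ := by linarith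
      _ < ε := by linarith
  have h1 : (S.chart i).D ∩ {c | (S.chart i).map c ∈ A} =
      (S.chart i).D \ ((S.chart i).U ∩ (S.chart i).map ⁻¹' Aᶜ) := by
    ext c
    constructor
    · rintro ⟨h2, h3⟩
      exact ⟨h2, fun hh => hh.2 h3⟩
    · rintro ⟨h2, h3⟩
      refine ⟨h2, ?_⟩
      by_contra hcon
      exact h3 ⟨(S.chart i).D_sub h2, hcon⟩
  rw [h1]
  exact (S.chart i).meas_D.diff
    (hc.isOpen_inter_preimage (S.chart i).isOpen_U hA.isOpen_compl).measurableSet

theorem strict_sum (S : Fill d K) (hfin : S.vol ≠ ⊤) {A : Set K} (hA : IsClosed A) {i : S.ι}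
    (hi : volume {x | x ∈ (S.chart i).D ∧ (S.chart i).map x ∈ Aᶜ} ≠ 0) :
    ∑' i, ∫⁻ c in (S.chart i).D ∩ {c | (S.chart i).map c ∈ A},
        ENNReal.ofReal √((S.chart i).G c).det < S.vol := by
  have hVd : S.vol = ∑' i, ∫⁻ c in (S.chart i).D, ENNReal.ofReal √((S.chart i).G c).det := rfl
  have hle : ∀ j, ∫⁻ c in (S.chart j).D ∩ {c | (S.chart j).map c ∈ A},
        ENNReal.ofReal √((S.chart j).G c).det ≤
      ∫⁻ c in (S.chart j).D, ENNReal.ofReal √((S.chart j).G c).det :=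
    fun j => lintegral_mono_set inter_subset_left
  have hf : ∑' i, ∫⁻ c in (S.chart i).D ∩ {c | (S.chart i).map c ∈ A},
        ENNReal.ofReal √((S.chart i).G c).det ≠ ⊤ :=
    ne_top_of_le_ne_top hfin (by rw [hVd]; exact ENNReal.tsum_le_tsum hle)
  rw [hVd]
  refine ENNReal.tsum_lt_tsum hf hle (i := i) ?_
  have hm := meas_DD S hA i
  set DD := (S.chart i).D ∩ {c | (S.chart i).map c ∈ A} with hDD
  have hfi : ∫⁻ c in DD, ENNReal.ofReal √((S.chart i).G c).det ≠ ⊤ := by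
    refine ne_top_of_le_ne_top hf ?_
    exact ENNReal.le_tsum i
  have h1 := lintegral_inter_add_sdiff (μ := volume)
    (fun x => ENNReal.ofReal √((S.chart i).G x).det) (S.chart i).D hm
  have h2 : (S.chart i).D ∩ DD = DD := inter_eq_right.2 inter_subset_left
  rw [h2] at h1
  rw [← h1]
  refine ENNReal.lt_add_right hfi ?_
  intro h3
  apply hi
  have hmD : MeasurableSet ((S.chart i).D \ DD) := (S.chart i).meas_D.diff hm
  have h4 := (lintegral_eq_zero_iff' (μ := volume.restrict ((S.chart i).D \ DD))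
    (((cont_sq (S.chart i).cont_G).mono (sdiff_subset.trans (S.chart i).D_sub)).aemeasurable
      hmD)).1 h3
  have h5 := (ae_restrict_iff' hmD).1 h4
  refine measure_mono_null ?_ h5
  intro x hx
  show ¬ (x ∈ (S.chart i).D \ DD → ENNReal.ofReal √((S.chart i).G x).det = 0)
  intro h6
  have h7 := h6 ⟨hx.1, fun hh => hx.2 hh.2⟩
  rw [ENNReal.ofReal_eq_zero] at h7
  have h8 : 0 < √((S.chart i).G x).det :=
    Real.sqrt_pos.2 ((S.chart i).pos_G x ((S.chart i).D_sub hx.1)).det_pos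
  linarith

end

/-- the conclusion from the equality case and the lower bound of the volume over closed sets -/
theorem core {R : ℝ} (hR0 : 0 < R) (hR1 : R < π / 2) {d : ℕ} {K : Type} [MetricSpace K]
    (S : Fill d K) (hbdc : Continuous S.bd)
    (hgeo : ∀ (q : K) (w : Sph (d + 1)) (t : ℝ), 0 ≤ t → t ≤ dist q (S.bd w) →
      ∃ m, dist q m = t ∧ dist m (S.bd w) = dist q (S.bd w) - t)
    (hsupp : ∀ W : Set K, IsOpen W → W.Nonempty →
      ∃ i, volume {x | x ∈ (S.chart i).D ∧ (S.chart i).map x ∈ W} ≠ 0)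
    {c : E (d + 2)} (hc : ‖c‖ = 1)
    {J : E (d + 1) →ₗᵢ[ℝ] E (d + 2)} (hJ : ∀ v, inner ℝ (J v) c = 0)
    (hekq : ∀ x q q', |ek (sin R) S.bd x q - ek (sin R) S.bd x q'| ≤ dist q q')
    (hVf : S.vol ≠ ⊤)
    (hvol : S.vol ≤ ∫⁻ p in ball (0 : E (d + 1)) (sin R), ENNReal.ofReal (lf p))
    (htot : ∀ i, ∀ᵐ x ∂(volume : Measure (E (d + 1))), x ∈ (S.chart i).D →
      ∃ p : E (d + 1), ‖p‖ < sin R ∧ ∀ y, UE (ek (sin R) S.bd) ((S.chart i).map x) y = inner ℝ p y)
    (hsub : ∀ A : Set K, IsClosed A → (∀ p : E (d + 1), ‖p‖ < sin R →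
      ∃ q ∈ A, FE (ek (sin R) S.bd) q = fun y => (inner ℝ p y : ℝ)) →
      ∫⁻ p in ball (0 : E (d + 1)) (sin R), ENNReal.ofReal (lf p) ≤
      ∑' i, ∫⁻ x in (S.chart i).D ∩ {x | (S.chart i).map x ∈ A},
        ENNReal.ofReal √((S.chart i).G x).det) :
    ∃ F : K → E (d + 2), (∀ q, ‖F q‖ = 1 ∧ angle (F q) c ≤ R) ∧
      (∀ q q', angle (F q) (F q') = dist q q') ∧
      (∀ x, ‖x‖ = 1 → angle x c ≤ R → ∃ q, F q = x) ∧
      ∀ v : Sph (d + 1), F (S.bd v) = bp R c J v := by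
  have h1 : 0 < sin R := sin_pos_of_pos_of_lt_pi hR0 (by linarith [pi_pos])
  have h2 : 0 < cos R := cos_pos_of_mem_Ioo ⟨by linarith, hR1⟩
  have h3 := cos_sq_add_sin_sq R
  have h4 : sin R < 1 := by nlinarith
  -- every point corresponds to a point of the ball
  have hcl : IsClosed {q | ∃ p, Cor R c J S.bd q p} := cor_closed hekq
  have hall : ∀ q, ∃ p, Cor R c J S.bd q p := by
    by_contra hcon
    push Not at hcon
    obtain ⟨q, hq⟩ := hcon
    obtain ⟨i, hi⟩ := hsupp {q | ∃ p, Cor R c J S.bd q p}ᶜ hcl.isOpen_compl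
      ⟨q, fun ⟨p, hp⟩ => hq p hp⟩
    apply hi
    refine measure_mono_null ?_ (htot i)
    intro x hx
    show ¬ (x ∈ (S.chart i).D → ∃ p : E (d + 1), ‖p‖ < sin R ∧
      ∀ y, UE (ek (sin R) S.bd) ((S.chart i).map x) y = inner ℝ p y)
    intro h5
    obtain ⟨p, hp, hU⟩ := h5 hx.1
    exact hx.2 ⟨p, cor_of_UE hc hJ hR0 hR1 hbdc hp hU⟩
  choose P hP using hall
  have hP1 : ∀ q, ‖P q‖ ≤ 1 := fun q => (hP q).1.trans (sin_le_one R)
  have hFn : ∀ q, ‖pt c J (P q)‖ = 1 := fun q => pt_norm hc hJ (hP1 q)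
  have hFc : ∀ q, cos R ≤ inner ℝ (pt c J (P q)) c := by
    intro q
    rw [pt_c hc hJ]
    refine Real.le_sqrt_of_sq_le ?_
    have h5 := (hP q).1
    have h6 := norm_nonneg (P q)
    nlinarith
  have hFa : ∀ q, angle (pt c J (P q)) c ≤ R := by
    intro q
    rw [ang_arc (hFn q) hc]
    calc arccos (inner ℝ (pt c J (P q)) c) ≤ arccos (cos R) := arccos_le_arccos (hFc q)
      _ = R := arccos_cos hR0.le (by linarith [pi_pos])
  have hbn : ∀ w : Sph (d + 1), ‖bp R c J w‖ = 1 := fun w => norm_bp hc hJ (sph_norm w)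
  have hFd : ∀ q (w : Sph (d + 1)), dist q (S.bd w) = angle (pt c J (P q)) (bp R c J w) := by
    intro q w
    rw [ang_arc (hFn q) (hbn w)]
    exact (hP q).2.2 w
  have hFb : ∀ v : Sph (d + 1), pt c J (P (S.bd v)) = bp R c J v := by
    intro v
    have h5 := hFd (S.bd v) v
    rw [dist_self] at h5
    exact eq_of_angle (hFn _) (hbn v) h5.symm
  -- one-Lipschitz
  have hFl : ∀ q q', angle (pt c J (P q)) (pt c J (P q')) ≤ dist q q' := by
    intro q q'
    by_cases hxy : pt c J (P q) = pt c J (P q')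
    · rw [hxy, angle_self (by
        intro h
        have := hFn q'
        rw [h, norm_zero] at this
        exact zero_ne_one this)]
      exact dist_nonneg
    · obtain ⟨u, t, hu, hxu, hyu, hθ0, hθt, ht, hta⟩ := extend (hFn q) (hFn q') hxy h2.le
        (h2.trans_le (hFc q)) (hFc q') (h2.trans_le (hFc q'))
      obtain ⟨w, hw⟩ := bp_of_height hc hJ h1 (gc_norm (hFn q) hu hxu t) hta
      have e1 := hFd q w
      have e2 := hFd q' w
      rw [← hw, gc_angle0 (hFn q) hu hxu (hθ0.le.trans hθt) ht.le] at e1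
      set θ := angle (pt c J (P q)) (pt c J (P q')) with hθ
      have e3 : angle (pt c J (P q')) (bp R c J w) = t - θ := by
        rw [← hw, hyu]
        exact gc_angle (hFn q) hu hxu hθt (by linarith)
      rw [e3] at e2
      have e4 := dist_triangle q q' (S.bd w)
      linarith
  -- lifting of great circles
  have hlift : ∀ q (x' : E (d + 2)), ‖x'‖ = 1 → angle x' c ≤ R →
      ∃ q₁, pt c J (P q₁) = x' ∧ dist q q₁ = angle (pt c J (P q)) x' := by
    intro q x' hx' hx'c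
    have hx'h : cos R ≤ inner ℝ x' c := by
      rw [inner_angle hx' hc]
      exact cos_le_cos_of_nonneg_of_le_pi (angle_nonneg _ _) (by linarith [pi_pos]) hx'c
    by_cases hxy : pt c J (P q) = x'
    · refine ⟨q, hxy, ?_⟩
      rw [dist_self, hxy, angle_self (by
        intro h
        rw [h, norm_zero] at hx'
        exact zero_ne_one hx')]
    · obtain ⟨u, t, hu, hxu, hyu, hθ0, hθt, ht, hta⟩ := extend (hFn q) hx' hxy h2.le
        (h2.trans_le (hFc q)) hx'h (h2.trans_le hx'h)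
      obtain ⟨w, hw⟩ := bp_of_height hc hJ h1 (gc_norm (hFn q) hu hxu t) hta
      have e1 := hFd q w
      rw [← hw, gc_angle0 (hFn q) hu hxu (hθ0.le.trans hθt) ht.le] at e1
      set θ := angle (pt c J (P q)) x' with hθ
      obtain ⟨m, hm1, hm2⟩ := hgeo q w θ hθ0.le (by rw [e1]; exact hθt)
      rw [e1] at hm2
      have e2 := hFd m w
      rw [hm2, ← hw] at e2
      have e3 := hFl q m
      rw [hm1] at e3
      have ht0 : 0 < t := hθ0.trans_le hθt
      have e4 := angle_le_angle_add_angle (pt c J (P q)) (pt c J (P m))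
        (cos t • pt c J (P q) + sin t • u)
      rw [gc_angle0 (hFn q) hu hxu ht0.le ht.le, ← e2] at e4
      have e5 : angle (pt c J (P q)) (pt c J (P m)) = θ := by linarith
      have e6 := on_gc (hFn q) hu hxu (hFn m) ht0 ht (by rw [← e2, e5]; ring)
      refine ⟨m, ?_, hm1⟩
      rw [e6, e5, ← hyu]
  have hptinj : ∀ p p' : E (d + 1), pt c J p = pt c J p' → p = p' := by
    intro p p' h
    refine ext_inner_right ℝ fun v => ?_
    rw [← pt_J hJ p v, ← pt_J hJ p' v, h]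
  -- injectivity
  have hinj : ∀ q q', pt c J (P q) = pt c J (P q') → q = q' := by
    intro q q' hqq
    by_contra hne
    have hr : 0 < dist q q' := dist_pos.2 hne
    set r := dist q q' / 2 with hrd
    have hr0 : 0 < r := by linarith
    have hA : IsClosed (ball q' r)ᶜ := isOpen_ball.isClosed_compl
    obtain ⟨i, hi⟩ := hsupp (ball q' r) isOpen_ball ⟨q', mem_ball_self hr0⟩
    have hlt := strict_sum S hVf hA (i := i) (by rwa [compl_compl])
    refine absurd (hlt.trans_le hvol) (not_lt.2 ?_)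
    refine hsub _ hA fun p hp => ?_
    have hp1 : ‖p‖ ≤ 1 := hp.le.trans h4.le
    have hpn := pt_norm hc hJ hp1
    have hpc : angle (pt c J p) c ≤ R := by
      rw [ang_arc hpn hc, pt_c hc hJ]
      have h5 : cos R ≤ √(1 - ‖p‖ ^ 2) := by
        refine Real.le_sqrt_of_sq_le ?_
        have h6 := norm_nonneg p
        nlinarith
      calc arccos √(1 - ‖p‖ ^ 2) ≤ arccos (cos R) := arccos_le_arccos h5
        _ = R := arccos_cos hR0.le (by linarith [pi_pos])
    obtain ⟨q₁, hq₁, hq₁d⟩ := hlift q (pt c J p) hpn hpc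
    refine ⟨q₁, ?_, ?_⟩
    · intro hmem
      rw [mem_ball] at hmem
      have h5 := hFl q' q₁
      rw [← hqq, hq₁, ← hq₁d, dist_comm q' q₁] at h5
      have h6 := dist_triangle q q₁ q'
      linarith
    · rw [FE_cor (hP q₁), hptinj _ _ hq₁]
  refine ⟨fun q => pt c J (P q), fun q => ⟨hFn q, hFa q⟩, fun q q' => ?_, fun x hx hxc => ?_, hFb⟩
  · obtain ⟨q₁, hq₁, hq₁d⟩ := hlift q (pt c J (P q')) (hFn q') (hFa q')
    rw [← hq₁d, hinj q₁ q' hq₁]
  · have hne := Pool.Agent.H241R3.FV.TExt.sph_nonempty (Nat.succ_pos d)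
    obtain ⟨v⟩ := hne
    obtain ⟨q₁, hq₁, -⟩ := hlift (S.bd v) x hx hxc
    exact ⟨q₁, hq₁⟩

/-- **Rigidity of the caps of radius less than `π/2` in high dimensions.** -/
theorem cap_rigid {R : ℝ} (hR0 : 0 < R) (hR1 : R < π / 2) : ∃ d₀ : ℕ, ∀ d : ℕ, d₀ ≤ d →
    ∀ {K : Type} [MetricSpace K] (S : Fill d K)
    (_ : (CompactSpace K ∧ S.Triangulated) ∨ S.NoRetraction) (_ : Continuous S.bd)
    (_ : ∀ (q : K) (w : Sph (d + 1)) (t : ℝ), 0 ≤ t → t ≤ dist q (S.bd w) →
      ∃ m, dist q m = t ∧ dist m (S.bd w) = dist q (S.bd w) - t)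
    (_ : ∀ W : Set K, IsOpen W → W.Nonempty →
      ∃ i, volume {x | x ∈ (S.chart i).D ∧ (S.chart i).map x ∈ W} ≠ 0)
    {c : E (d + 2)} (_ : ‖c‖ = 1)
    {J : E (d + 1) →ₗᵢ[ℝ] E (d + 2)} (_ : ∀ v, inner ℝ (J v) c = 0)
    (_ : ∀ v w : Sph (d + 1), angle (bp R c J v) (bp R c J w) ≤ dist (S.bd v) (S.bd w))
    (_ : S.vol ≤ sig (d + 2) {x : Sph (d + 2) | angle (x : E (d + 2)) c ≤ R}),
    ∃ F : K → E (d + 2), (∀ q, ‖F q‖ = 1 ∧ angle (F q) c ≤ R) ∧
      (∀ q q', angle (F q) (F q') = dist q q') ∧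
      (∀ x, ‖x‖ = 1 → angle x c ≤ R → ∃ q, F q = x) ∧
      ∀ v : Sph (d + 1), F (S.bd v) = bp R c J v := by
  have h1 : 0 < sin R := sin_pos_of_pos_of_lt_pi hR0 (by linarith [pi_pos])
  have h2 : 0 < cos R := cos_pos_of_mem_Ioo ⟨by linarith, hR1⟩
  have h3 := cos_sq_add_sin_sq R
  have h4 : sin R < 1 := by nlinarith
  obtain ⟨k, κ, κ', ρ', L, eps, n₀, hκ0, hκ, hpar⟩ := par_exists h1 h4
  refine ⟨n₀, fun d hd K _ S hT hbdc hgeo hsupp c hc J hJ hdist hvol => ?_⟩
  have hns : ∀ v w : Sph (d + 1), arccos (cos R ^ 2 + sin R ^ 2 *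
      inner ℝ (v : E (d + 1)) (w : E (d + 1))) ≤ dist (S.bd v) (S.bd w) := by
    intro v w
    rw [← angle_bp hc hJ (sph_norm v) (sph_norm w)]
    exact hdist v w
  have hdk := HD.ek_dk (Nat.succ_pos d) h1 h2 h3 hns
  have hul := ek_ul (Nat.succ_pos d) h1 h2 h3 hκ0 hκ S.bd
  have hpar' := hpar (d + 1) (by omega)
  rw [cap_sig d hR0.le (by linarith [pi_pos]) hc, ← ball_lf d hR0 hR1] at hvol
  have hfin : ∫⁻ p in ball (0 : E (d + 1)) (sin R), ENNReal.ofReal (lf p) ≠ ⊤ := by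
    rw [ball_lf d hR0 hR1]
    exact ENNReal.ofReal_ne_top
  refine core hR0 hR1 S hbdc hgeo hsupp hc hJ hdk.q (ne_top_of_le_ne_top hfin hvol) hvol
    (total_eq hpar' S hdk hul (fun v w => (angle_le_cap h1 h3 v w).trans (hns v w)) hT hfin hvol)
    fun A hA hcv => vol_sub hpar' S hdk hul hA fun p hp => ?_
  obtain ⟨q, hqA, hq⟩ := hcv p hp
  refine ⟨q, hqA, ?_⟩
  rw [hq]
  exact XX_self k p

/-- **Rigidity of the caps of radius at most `arcsin √(5/41) = 20.4°` in all dimensions.** -/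
theorem cap_rigid_all {d : ℕ} {K : Type} [MetricSpace K] (S : Fill d K)
    (hT : (CompactSpace K ∧ S.Triangulated) ∨ S.NoRetraction) {R : ℝ} (hR0 : 0 < R)
    (hR1 : R < π / 2) (hR : 41 * sin R ^ 2 ≤ 5) (hbdc : Continuous S.bd)
    (hgeo : ∀ (q : K) (w : Sph (d + 1)) (t : ℝ), 0 ≤ t → t ≤ dist q (S.bd w) →
      ∃ m, dist q m = t ∧ dist m (S.bd w) = dist q (S.bd w) - t)
    (hsupp : ∀ W : Set K, IsOpen W → W.Nonempty →
      ∃ i, volume {x | x ∈ (S.chart i).D ∧ (S.chart i).map x ∈ W} ≠ 0)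
    {c : E (d + 2)} (hc : ‖c‖ = 1)
    {J : E (d + 1) →ₗᵢ[ℝ] E (d + 2)} (hJ : ∀ v, inner ℝ (J v) c = 0)
    (hdist : ∀ v w : Sph (d + 1), angle (bp R c J v) (bp R c J w) ≤ dist (S.bd v) (S.bd w))
    (hvol : S.vol ≤ sig (d + 2) {x : Sph (d + 2) | angle (x : E (d + 2)) c ≤ R}) :
    ∃ F : K → E (d + 2), (∀ q, ‖F q‖ = 1 ∧ angle (F q) c ≤ R) ∧
      (∀ q q', angle (F q) (F q') = dist q q') ∧
      (∀ x, ‖x‖ = 1 → angle x c ≤ R → ∃ q, F q = x) ∧
      ∀ v : Sph (d + 1), F (S.bd v) = bp R c J v := by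
  have h1 : 0 < sin R := sin_pos_of_pos_of_lt_pi hR0 (by linarith [pi_pos])
  have h2 : 0 < cos R := cos_pos_of_mem_Ioo ⟨by linarith, hR1⟩
  have h3 := cos_sq_add_sin_sq R
  have hns : ∀ v w : Sph (d + 1), arccos (cos R ^ 2 + sin R ^ 2 *
      inner ℝ (v : E (d + 1)) (w : E (d + 1))) ≤ dist (S.bd v) (S.bd w) := by
    intro v w
    rw [← angle_bp hc hJ (sph_norm v) (sph_norm w)]
    exact hdist v w
  have hsc : sin R ≤ cos R := by
    refine le_of_sq_le_sq ?_ h2.le
    linarith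
  have hpar : CM.Par (d + 1) (√2 * sin R) (sin R) := by
    refine ⟨Nat.succ_pos d, by positivity, h1, hR, ?_⟩
    rw [mul_pow, Real.sq_sqrt (by norm_num)]
  have hdk := CM.ek_dk (Nat.succ_pos d) h1 h2 h3 hsc hns
  rw [cap_sig d hR0.le (by linarith [pi_pos]) hc, ← ball_lf d hR0 hR1] at hvol
  have hfin : ∫⁻ p in ball (0 : E (d + 1)) (sin R), ENNReal.ofReal (lf p) ≠ ⊤ := by
    rw [ball_lf d hR0 hR1]
    exact ENNReal.ofReal_ne_top
  refine core hR0 hR1 S hbdc hgeo hsupp hc hJ hdk.q (ne_top_of_le_ne_top hfin hvol) hvol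
    (total_eq0 hpar S hdk (fun v w => (angle_le_cap h1 h3 v w).trans (hns v w)) hT hfin hvol)
    fun A hA hcv => vol_sub0 hpar S hdk hA fun p hp => ?_
  obtain ⟨q, hqA, hq⟩ := hcv p hp
  refine ⟨q, hqA, ?_⟩
  rw [hq]
  unfold HH
  simp

end Pool.Agent.Q183.CR
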